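import Mathlib

open Polynomial

namespace Pool.Agent.H367R2.RP

variable {p : ℕ} [hp : Fact p.Prime]

/-- `x` is of the form `u ^ p - u` -/
def InAS (p : ℕ) {R : Type} [CommRing R] (x : R) : Prop := ∃ u : R, u ^ p - u = x

section gen
variable {R : Type} [CommRing R] [CharP R p]

omit [CharP R p] in
theorem InAS.zero : InAS p (0 : R) := ⟨0, by simp [hp.out.ne_zero]⟩

theorem InAS.add {x y : R} (hx : InAS p x) (hy : InAS p y) : InAS p (x + y) := by
  obtain ⟨u, rfl⟩ := hx
  obtain ⟨v, rfl⟩ := hy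
  refine ⟨u + v, ?_⟩
  rw [add_pow_char]
  ring

theorem InAS.neg {x : R} (hx : InAS p x) : InAS p (-x) := by
  obtain ⟨u, rfl⟩ := hx
  refine ⟨-u, ?_⟩
  have h := sub_pow_char (p := p) (0 : R) u
  rw [zero_sub, zero_pow hp.out.ne_zero, zero_sub] at h
  rw [h]
  ring

theorem InAS.sub {x y : R} (hx : InAS p x) (hy : InAS p y) : InAS p (x - y) := by
  rw [sub_eq_add_neg]; exact hx.add hy.neg

theorem InAS.sum {ι : Type} (s : Finset ι) (f : ι → R) (h : ∀ i ∈ s, InAS p (f i)) :
    InAS p (∑ i ∈ s, f i) := by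
  classical
  induction s using Finset.induction_on with
  | empty => simpa using InAS.zero
  | insert a s ha ih =>
    rw [Finset.sum_insert ha]
    exact (h a (Finset.mem_insert_self a s)).add
      (ih fun i hi => h i (Finset.mem_insert_of_mem hi))

omit hp [CharP R p] in
theorem InAS.frob (x : R) : InAS p (x ^ p - x) := ⟨x, rfl⟩

theorem InAS.frob_iter (x : R) (n : ℕ) : InAS p (x ^ p ^ n - x) := by
  induction n with
  | zero => simpa using InAS.zero
  | succ n ih =>
    have : x ^ p ^ (n + 1) - x = ((x ^ p ^ n) ^ p - x ^ p ^ n) + (x ^ p ^ n - x) := by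
      rw [pow_succ, pow_mul]; ring
    rw [this]
    exact (InAS.frob _).add ih

end gen

/-- The constants of the prime field are fixed by Frobenius. -/
theorem zmod_pow (c : ZMod p) : c ^ p = c := ZMod.pow_card c

theorem InAS.smul {R : Type} [CommRing R] [Algebra (ZMod p) R] (c : ZMod p) {x : R}
    (hx : InAS p x) : InAS p (algebraMap (ZMod p) R c * x) := by
  obtain ⟨u, rfl⟩ := hx
  refine ⟨algebraMap (ZMod p) R c * u, ?_⟩
  rw [mul_pow, ← map_pow, zmod_pow]
  ring

/-- degrees of polynomials of the form `u ^ p - u` -/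
theorem dvd_natDegree_of_inAS {f : (ZMod p)[X]} (hf : InAS p f) : p ∣ f.natDegree := by
  obtain ⟨u, rfl⟩ := hf
  by_cases hu : u.natDegree = 0
  · rw [Polynomial.eq_C_of_natDegree_eq_zero hu, ← C_pow, zmod_pow, sub_self]
    simp
  · rw [natDegree_sub_eq_left_of_natDegree_lt]
    · rw [natDegree_pow]
      exact Dvd.intro _ rfl
    · rw [natDegree_pow]
      have h2 := hp.out.two_le
      have : 0 < u.natDegree := Nat.pos_of_ne_zero hu
      nlinarith

/-- the field of rational functions -/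
abbrev KK (p : ℕ) [Fact p.Prime] := RatFunc (ZMod p)

/-- the embedding of the polynomials -/
noncomputable abbrev io (p : ℕ) [Fact p.Prime] : (ZMod p)[X] →+* KK p :=
  algebraMap (ZMod p)[X] (KK p)

theorem io_inj : Function.Injective (io p) := IsFractionRing.injective _ _

theorem integral_of {u : KK p} {δ c : (ZMod p)[X]}
    (h : u ^ p - io p (δ ^ (p - 1)) * u = io p c) : ∃ U : (ZMod p)[X], io p U = u := by
  apply (IsIntegrallyClosed.isIntegral_iff (R := (ZMod p)[X]) (K := KK p)).mp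
  refine ⟨X ^ p - C (δ ^ (p - 1)) * X - C c, ?_, ?_⟩
  · rw [sub_sub]
    apply Polynomial.monic_X_pow_sub
    have h2 := hp.out.two_le
    calc (C (δ ^ (p - 1)) * X + C c).degree ≤ 1 := degree_linear_le
      _ ≤ ((p - 1 : ℕ) : WithBot ℕ) := by
          have : 1 ≤ p - 1 := by omega
          exact_mod_cast this
      _ < _ := by
          have : p - 1 < p := by omega
          exact_mod_cast this
  · simp only [eval₂_sub, eval₂_X_pow, eval₂_mul, eval₂_C, eval₂_X]
    rw [h, sub_self]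

/-- an element whose Artin-Schreier class is polynomial -/
theorem inAS_of_io {f : (ZMod p)[X]} (hf : InAS p (io p f)) : InAS p f := by
  obtain ⟨u, hu⟩ := hf
  obtain ⟨U, rfl⟩ := integral_of (u := u) (δ := 1) (c := f) (by simpa using hu)
  refine ⟨U, ?_⟩
  apply io_inj
  rw [map_sub, map_pow, hu]

theorem derivative_pow_char (f : (ZMod p)[X]) : derivative (f ^ p) = 0 := by
  rw [derivative_pow]
  simp

/-- The derivative trick: no finite poles. -/
theorem no_poles (h5 : 5 ≤ p) {g : KK p} {c₀ : ZMod p} (hc : c₀ ≠ 0)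
    {α β f : (ZMod p)[X]}
    (h : InAS p (io p (C c₀ * X) * g ^ p + io p α * g ^ 2 + io p β * g + io p f)) :
    ∃ G : (ZMod p)[X], io p G = g := by
  obtain ⟨u, hu⟩ := h
  set δ := g.denom with hδ
  set N := g.num with hN
  have hδ0 : io p δ ≠ 0 := by
    rw [Ne, map_eq_zero_iff _ io_inj]
    exact RatFunc.denom_ne_zero g
  have hg : g = io p N / io p δ := (RatFunc.num_div_denom g).symm
  have hcop : IsCoprime N δ := RatFunc.isCoprime_num_denom g
  obtain ⟨q, rfl⟩ : ∃ q, p = q + 4 := ⟨p - 4, by omega⟩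
  have hgd : g * io (q + 4) δ = io (q + 4) N := by
    rw [hg, div_mul_cancel₀ _ hδ0]
  -- the integrality of `δ u`
  have hint : (io (q + 4) δ * u) ^ (q + 4) - io (q + 4) (δ ^ (q + 4 - 1)) * (io (q + 4) δ * u) =
      io (q + 4) (C c₀ * X * N ^ (q + 4) + α * N ^ 2 * δ ^ (q + 2) + β * N * δ ^ (q + 3) +
        f * δ ^ (q + 4)) := by
    have e1 : (io (q + 4) δ * u) ^ (q + 4) - io (q + 4) (δ ^ (q + 4 - 1)) * (io (q + 4) δ * u) =
        io (q + 4) δ ^ (q + 4) * (u ^ (q + 4) - u) := by
      have : q + 4 - 1 = q + 3 := rfl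
      rw [this, map_pow]
      ring
    rw [e1, hu]
    simp only [map_add, map_mul, map_pow, ← hgd]
    ring
  obtain ⟨U, hU⟩ := integral_of hint
  have hpoly : U ^ (q + 4) - δ ^ (q + 3) * U = C c₀ * X * N ^ (q + 4) + α * N ^ 2 * δ ^ (q + 2) +
      β * N * δ ^ (q + 3) + f * δ ^ (q + 4) := by
    apply io_inj
    rw [← hint, ← hU]
    simp only [map_sub, map_mul, map_pow]
    rfl
  have hmain : C c₀ * X * N ^ (q + 4) = U ^ (q + 4) +
      δ ^ 2 * (-(δ ^ (q + 1) * U) - α * N ^ 2 * δ ^ q - β * N * δ ^ (q + 1) -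
        f * δ ^ (q + 2)) := by
    linear_combination (-1 : (ZMod (q + 4))[X]) * hpoly
  have hder := congrArg derivative hmain
  rw [derivative_mul, derivative_add, derivative_mul (f := δ ^ 2), derivative_pow_char,
    derivative_pow_char] at hder
  simp only [derivative_mul, derivative_C, derivative_X, zero_mul, mul_one, zero_add,
    mul_zero, add_zero] at hder
  set W := (-(δ ^ (q + 1) * U) - α * N ^ 2 * δ ^ q - β * N * δ ^ (q + 1) -
        f * δ ^ (q + 2)) with hW
  have hdvd : δ ∣ C c₀ * N ^ (q + 4) := by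
    rw [hder]
    apply dvd_add
    · apply Dvd.dvd.mul_right
      rw [pow_two, derivative_mul]
      exact dvd_add (Dvd.intro_left _ rfl) (Dvd.intro _ rfl)
    · apply Dvd.dvd.mul_right
      exact dvd_pow_self δ two_ne_zero
  have hunit : IsUnit (C c₀ : (ZMod (q + 4))[X]) := by
    rw [isUnit_C]; exact IsUnit.mk0 _ hc
  have hdvd2 : δ ∣ N ^ (q + 4) := by
    rwa [hunit.dvd_mul_left] at hdvd
  have hcop2 : IsCoprime (N ^ (q + 4)) δ := hcop.pow_left
  have hδu : IsUnit δ := hcop2.isUnit_of_dvd' hdvd2 dvd_rfl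
  have hδ1 : δ = 1 := (RatFunc.monic_denom g).eq_one_of_isUnit hδu
  refine ⟨N, ?_⟩
  rw [← hgd, hδ1, map_one, mul_one]

/-- if `t g ^ p` is of the form `u ^ p - u` then `g = 0` -/
theorem eq_zero_of_inAS (h5 : 5 ≤ p) {g : KK p} (h : InAS p (io p X * g ^ p)) : g = 0 := by
  obtain ⟨G, rfl⟩ := no_poles (g := g) h5 (c₀ := 1) one_ne_zero (α := 0) (β := 0) (f := 0)
    (by simpa using h)
  have h1 : InAS p (X * G ^ p : (ZMod p)[X]) := by
    apply inAS_of_io
    simpa using h
  have h2 := dvd_natDegree_of_inAS h1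
  by_contra hne
  have hG : G ≠ 0 := by
    rintro rfl
    exact hne (map_zero _)
  rw [natDegree_X_mul (pow_ne_zero _ hG), natDegree_pow] at h2
  have h3 : p ∣ 1 := (Nat.dvd_add_right (Dvd.intro _ rfl)).mp h2
  exact hp.out.one_lt.ne' (Nat.dvd_one.mp h3)

end Pool.Agent.H367R2.RP
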