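import Pool.Agent.H367R2.RP.Lfun

open Polynomial

namespace Pool.Agent.H367R2.RP

variable {p : ℕ} [hp : Fact p.Prime]

theorem not_dvd_one : ¬ p ∣ 1 := fun h => hp.out.one_lt.ne' (Nat.dvd_one.mp h)

theorem LXX {e j : ℕ} (he : ¬ p ∣ e) (hj : j ≠ 0) :
    Lf p e (X * X ^ p ^ j) = if e = 1 + p ^ j then 1 else 0 := by
  classical
  rw [← pow_succ', Lf_X_pow]
  have : (∃ k, p ^ j + 1 = e * p ^ k) ↔ e = 1 + p ^ j := by
    constructor
    · rintro ⟨k, hk⟩
      have h1 : (1 + p ^ j) * p ^ 0 = e * p ^ k := by rw [← hk]; ring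
      have := part_unique (not_dvd_add_pow not_dvd_one hj) he h1
      exact this.2.symm
    · rintro rfl
      exact ⟨0, by ring⟩
  exact if_congr this rfl rfl

open Classical in
theorem Lf_mul_X_pow (e D : ℕ) (g : (ZMod p)[X]) : Lf p e (g * X ^ D) =
    ∑ a ∈ g.support, if ∃ k, a + D = e * p ^ k then g.coeff a else 0 := by
  conv_lhs => rw [g.as_sum_support]
  rw [Finset.sum_mul, map_sum]
  refine Finset.sum_congr rfl fun a _ => ?_
  rw [X_pow_eq_monomial, monomial_mul_monomial, mul_one, Lf_monomial]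

section Sys

variable {N : ℕ} (hN : 1 ≤ N) {g G : (ZMod p)[X]} (hdeg : g.natDegree ≤ p ^ (N - 1))

include hdeg in
theorem supp_le {a : ℕ} (ha : a ∈ g.support) : a ≤ p ^ (N - 1) :=
  (le_natDegree_of_mem_supp a ha).trans hdeg

include hN in
theorem level_lt {i' l : ℕ} (hi' : 0 < i') (hi : i' * p ^ l ≤ p ^ (N - 1)) :
    l ≤ N - 1 ∧ i' < p ^ (2 * N - l) ∧ p ^ (N - 1) < p ^ (2 * N - l) := by
  have h1 : p ^ l ≤ p ^ (N - 1) := (Nat.le_mul_of_pos_left _ hi').trans hi
  have h2 : l ≤ N - 1 := (Nat.pow_le_pow_iff_right hp.out.one_lt).mp h1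
  have h3 : p ^ (N - 1) < p ^ (2 * N - l) := Nat.pow_lt_pow_right hp.out.one_lt (by omega)
  refine ⟨h2, ?_, h3⟩
  exact lt_of_le_of_lt ((Nat.le_mul_of_pos_right _ (pow_pos hp.out.pos l)).trans hi) h3

include hN in
/-- the exponents `a` at level zero -/
theorem orb_D {i' l a : ℕ} (hi' : 0 < i') (hi : i' * p ^ l ≤ p ^ (N - 1))
    (ha : a ≤ p ^ (N - 1)) :
    (∃ k, a + p ^ (2 * N) = (i' + p ^ (2 * N - l)) * p ^ k) ↔ a = i' * p ^ l := by
  obtain ⟨hl, hlt, hlt2⟩ := level_lt hN hi' hi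
  constructor
  · rintro ⟨k, hk⟩
    have e1 : (i' + p ^ (2 * N - l)) * p ^ k = i' * p ^ k + p ^ (2 * N - l + k) := by
      rw [add_mul, pow_add]
    rw [e1] at hk
    have b1 : a < p ^ (2 * N) :=
      lt_of_le_of_lt ha (Nat.pow_lt_pow_right hp.out.one_lt (by omega))
    have b2 : i' * p ^ k < p ^ (2 * N - l + k) := by
      rw [pow_add]
      exact Nat.mul_lt_mul_of_pos_right hlt (pow_pos hp.out.pos k)
    obtain ⟨h1, h2⟩ := lead_unique b1 b2 hk
    have : k = l := by omega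
    rw [h2, this]
  · rintro rfl
    refine ⟨l, ?_⟩
    rw [add_mul, ← pow_add]
    have : 2 * N - l + l = 2 * N := by omega
    rw [this]

include hN hdeg in
theorem Lg {i' l : ℕ} (hi' : 0 < i') (hi : i' * p ^ l ≤ p ^ (N - 1)) :
    Lf p (i' + p ^ (2 * N - l)) (g * X ^ p ^ (2 * N)) = g.coeff (i' * p ^ l) := by
  classical
  rw [Lf_mul_X_pow]
  have : ∀ a ∈ g.support, (if ∃ k, a + p ^ (2 * N) = (i' + p ^ (2 * N - l)) * p ^ k
      then g.coeff a else 0) = if a = i' * p ^ l then g.coeff a else 0 := by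
    intro a ha
    exact if_congr (orb_D hN hi' hi (supp_le hdeg ha)) rfl rfl
  rw [Finset.sum_congr rfl this, Finset.sum_ite_eq' g.support]
  split_ifs with h
  · rfl
  · exact (notMem_support_iff.mp h).symm

variable (R4 : InAS p (X * X ^ p ^ (2 * N + 1) + g * X ^ p ^ (2 * N) - X * G ^ p))
  (R3 : InAS p (X * G ^ p + g * G -
    (X * X ^ p ^ (2 * N + 1) + X * X ^ p ^ (2 * N) + X * X ^ p ^ 2 + X * X ^ p ^ 1)))

include hN hdeg R4 in
theorem coeff_g {i' l : ℕ} (hi' : ¬ p ∣ i') (hi : i' * p ^ l ≤ p ^ (N - 1)) :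
    g.coeff (i' * p ^ l) = Lf p (i' + p ^ (2 * N - l)) (X * G ^ p) := by
  have hpos : 0 < i' := Nat.pos_of_ne_zero (by rintro rfl; exact hi' (dvd_zero _))
  obtain ⟨hl, hlt, hlt2⟩ := level_lt hN hpos hi
  have he : ¬ p ∣ i' + p ^ (2 * N - l) := not_dvd_add_pow hi' (by omega)
  have h := Lf_inAS he R4
  rw [map_sub, map_add, LXX he (by omega), Lg hN hdeg hpos hi, if_neg, zero_add,
    sub_eq_zero] at h
  · exact h
  · intro heq
    have h1 : 1 < p ^ (2 * N + 1) := Nat.one_lt_pow (by omega) hp.out.one_lt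
    have := lead_unique hlt h1 heq
    omega

include hN hdeg R4 in
theorem coeff_g_zero {i' l : ℕ} (hi' : ¬ p ∣ i') (hi1 : ∀ c, i' ≠ p * c + 1) :
    g.coeff (i' * p ^ l) = 0 := by
  by_cases hi : i' * p ^ l ≤ p ^ (N - 1)
  · rw [coeff_g hN hdeg R4 hi' hi]
    have hpos : 0 < i' := Nat.pos_of_ne_zero (by rintro rfl; exact hi' (dvd_zero _))
    obtain ⟨hl, hlt, hlt2⟩ := level_lt hN hpos hi
    apply Lf_X_mul_pow_zero
    intro c hc
    obtain ⟨j, hj⟩ : ∃ j, 2 * N - l = j + 1 := ⟨2 * N - l - 1, by omega⟩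
    rw [hj, pow_succ] at hc
    apply hi1 (c - p ^ j)
    have h1 : p ^ j ≤ c := by
      by_contra hcon
      push Not at hcon
      have h2 : p * (c + 1) ≤ p * p ^ j := Nat.mul_le_mul_left p hcon
      have h3 := hp.out.two_le
      nlinarith
    zify [h1] at hc ⊢
    linarith
  · apply coeff_eq_zero_of_natDegree_lt
    push Not at hi
    exact lt_of_le_of_lt hdeg hi

include hN hdeg R4 in
theorem coeff_G {i' l c : ℕ} (hi' : ¬ p ∣ i') (hi : i' * p ^ l ≤ p ^ (N - 1))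
    (hc : p * c + 1 = i' + p ^ (2 * N - l)) : G.coeff c = g.coeff (i' * p ^ l) := by
  rw [coeff_g hN hdeg R4 hi' hi, ← hc, Lf_X_mul_pow]

include hN hdeg R4 in
theorem supp_G {c : ℕ} (hc : G.coeff c ≠ 0) : c = p ^ (2 * N) ∨ c = 0 ∨
    ∃ i' l, ¬ p ∣ i' ∧ g.coeff (i' * p ^ l) ≠ 0 ∧ p * c + 1 = i' + p ^ (2 * N - l) := by
  classical
  have he : ¬ p ∣ p * c + 1 := fun h =>
    not_dvd_one ((Nat.dvd_add_right (Dvd.intro _ rfl)).mp h)
  have h := Lf_inAS he R4
  rw [map_sub, map_add, LXX he (by omega), Lf_X_mul_pow, Lf_mul_X_pow, sub_eq_zero] at h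
  by_cases h1 : p * c + 1 = 1 + p ^ (2 * N + 1)
  · left
    have : p * c = p * p ^ (2 * N) := by rw [pow_succ'] at h1; omega
    exact Nat.eq_of_mul_eq_mul_left hp.out.pos this
  · right
    rw [if_neg h1, zero_add] at h
    rw [← h] at hc
    obtain ⟨a, ha, hne⟩ := Finset.exists_ne_zero_of_sum_ne_zero hc
    have hex : ∃ k, a + p ^ (2 * N) = (p * c + 1) * p ^ k := by
      by_contra hcon
      rw [if_neg hcon] at hne
      exact hne rfl
    have hga : g.coeff a ≠ 0 := mem_support_iff.mp ha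
    obtain ⟨k, hk⟩ := hex
    rcases Nat.eq_zero_or_pos a with h0 | hpos
    · left
      rw [h0, zero_add] at hk
      have h3 : 1 * p ^ (2 * N) = (p * c + 1) * p ^ k := by rw [one_mul]; exact hk
      have := (part_unique not_dvd_one he h3).2
      have h4 : p * c = 0 := by omega
      rcases Nat.mul_eq_zero.mp h4 with h5 | h5
      · exact absurd h5 hp.out.ne_zero
      · exact h5
    · right
      obtain ⟨l, i', hi', hai⟩ := Nat.exists_eq_pow_mul_and_not_dvd (n := a) hpos.ne' p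
        hp.out.ne_one
      have hai' : a = i' * p ^ l := by rw [hai, mul_comm]
      have hile : i' * p ^ l ≤ p ^ (N - 1) := by rw [← hai']; exact supp_le hdeg ha
      have hpos' : 0 < i' := Nat.pos_of_ne_zero (by rintro rfl; exact hi' (dvd_zero _))
      obtain ⟨hl, hlt, hlt2⟩ := level_lt hN hpos' hile
      refine ⟨i', l, hi', by rw [← hai']; exact hga, ?_⟩
      have h3 : (i' + p ^ (2 * N - l)) * p ^ l = (p * c + 1) * p ^ k := by
        rw [← hk, hai', add_mul, ← pow_add]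
        have : 2 * N - l + l = 2 * N := by omega
        rw [this]
      exact (part_unique (not_dvd_add_pow hi' (by omega)) he h3).2.symm

include hN hdeg R4 in
theorem coeff_G_top : G.coeff (p ^ (2 * N)) = 1 := by
  classical
  have he : ¬ p ∣ p * p ^ (2 * N) + 1 := fun h =>
    not_dvd_one ((Nat.dvd_add_right (Dvd.intro _ rfl)).mp h)
  have h := Lf_inAS he R4
  rw [map_sub, map_add, LXX he (by omega), Lf_X_mul_pow, Lf_mul_X_pow, sub_eq_zero] at h
  rw [if_pos (by rw [pow_succ']; ring)] at h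
  rw [← h, Finset.sum_eq_zero, add_zero]
  intro a ha
  rw [if_neg]
  rintro ⟨k, hk⟩
  have h1 := supp_le hdeg ha
  have h2 : p ^ (N - 1) < p ^ (2 * N) := Nat.pow_lt_pow_right hp.out.one_lt (by omega)
  have h3 : p * p ^ (2 * N) + 1 ≤ (p * p ^ (2 * N) + 1) * p ^ k :=
    Nat.le_mul_of_pos_right _ (pow_pos hp.out.pos k)
  have h4 := hp.out.two_le
  nlinarith

end Sys

end Pool.Agent.H367R2.RP
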