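import Pool.Agent.H367R2.RP.Comb

open Polynomial

namespace Pool.Agent.H367R2.RP

variable {p : ℕ} [hp : Fact p.Prime]

theorem two_ne_zero_zmod (h5 : 5 ≤ p) : (2 : ZMod p) ≠ 0 := by
  intro h
  have h1 : ((2 : ℕ) : ZMod p) = 0 := by exact_mod_cast h
  rw [ZMod.natCast_eq_zero_iff] at h1
  have := Nat.le_of_dvd (by norm_num) h1
  omega

section Sys

variable {N : ℕ} (hN : 1 ≤ N) {g G : (ZMod p)[X]} (hdeg : g.natDegree ≤ p ^ (N - 1))
variable (R4 : InAS p (X * X ^ p ^ (2 * N + 1) + g * X ^ p ^ (2 * N) - X * G ^ p))
  (R3 : InAS p (X * G ^ p + g * G -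
    (X * X ^ p ^ (2 * N + 1) + X * X ^ p ^ (2 * N) + X * X ^ p ^ 2 + X * X ^ p ^ 1)))

include hN hdeg R4 R3 in
theorem additive (h5 : 5 ≤ p) : ∀ (l i' : ℕ), ¬ p ∣ i' → i' ≠ 1 → g.coeff (i' * p ^ l) = 0 := by
  classical
  intro l
  induction l using Nat.strong_induction_on with
  | _ l ih =>
  intro i' hi' hi1
  by_contra hne
  have hi : i' * p ^ l ≤ p ^ (N - 1) := supp_le hdeg (mem_support_iff.mpr hne)
  have hpos : 0 < i' := Nat.pos_of_ne_zero (by rintro rfl; exact hi' (dvd_zero _))
  obtain ⟨hl, hlt, hlt2⟩ := level_lt hN hpos hi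
  have he : ¬ p ∣ i' + p ^ (2 * N - l) := not_dvd_add_pow hi' (by omega)
  set e := i' + p ^ (2 * N - l) with hedef
  have h2 := hp.out.two_le
  have hejs : ∀ j, j ≠ 0 → e ≠ 1 + p ^ j := by
    intro j hj heq
    have h1 : 1 < p ^ j := Nat.one_lt_pow hj hp.out.one_lt
    exact hi1 (lead_unique hlt h1 heq).2
  have hL := Lf_inAS he R3
  rw [map_sub, map_add, map_add, map_add, map_add, LXX he (by omega), LXX he (by omega),
    LXX he (by omega), LXX he (by omega), if_neg (hejs _ (by omega)), if_neg (hejs _ (by omega)),
    if_neg (hejs _ (by omega)), if_neg (hejs _ (by omega)), add_zero, add_zero, add_zero,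
    sub_zero, ← coeff_g hN hdeg R4 hi' hi, Lf_mul] at hL
  have hsum : (∑ x ∈ g.support ×ˢ G.support,
      if ∃ k, x.1 + x.2 = e * p ^ k then g.coeff x.1 * G.coeff x.2 else 0) =
      g.coeff (i' * p ^ l) * G.coeff (p ^ (2 * N)) := by
    rw [Finset.sum_eq_single (i' * p ^ l, p ^ (2 * N))]
    · rw [if_pos]
      exact (orb_D hN hpos hi hi).mpr rfl
    · rintro ⟨a, c⟩ hx hxne
      rw [Finset.mem_product] at hx
      obtain ⟨ha, hc⟩ := hx
      simp only at ha hc ⊢
      rw [if_neg]
      rintro ⟨k, hk⟩
      have hale := supp_le hdeg ha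
      have hc' : G.coeff c ≠ 0 := mem_support_iff.mp hc
      rcases supp_G hN hdeg R4 hc' with h | h | ⟨j', v, hj', hgj, hcj⟩
      · subst h
        have := (orb_D hN hpos hi hale).mp ⟨k, hk⟩
        exact hxne (by rw [this])
      · subst h
        rw [add_zero] at hk
        have h3 : e ≤ e * p ^ k := Nat.le_mul_of_pos_right _ (pow_pos hp.out.pos k)
        omega
      · have hjle : j' * p ^ v ≤ p ^ (N - 1) := supp_le hdeg (mem_support_iff.mpr hgj)
        have hjpos : 0 < j' := Nat.pos_of_ne_zero (by rintro rfl; exact hj' (dvd_zero _))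
        obtain ⟨hv, hvlt, hvlt2⟩ := level_lt hN hjpos hjle
        have hj'le : j' ≤ p ^ (N - 1) := (Nat.le_mul_of_pos_right _ (pow_pos hp.out.pos v)).trans hjle
        have e1 : p * a + (j' - 1) + p ^ (2 * N - v) =
            i' * p ^ (k + 1) + p ^ (2 * N - l + (k + 1)) := by
          have e2 : p * (a + c) = p * (e * p ^ k) := by rw [hk]
          have e3 : p * (e * p ^ k) = i' * p ^ (k + 1) + p ^ (2 * N - l + (k + 1)) := by
            rw [hedef, pow_add, pow_succ]; ring
          rw [e3, mul_add] at e2
          omega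
        have b1 : p * a + (j' - 1) < p ^ (2 * N - v) := by
          have c1 : p * a ≤ p * p ^ (N - 1) := Nat.mul_le_mul_left p hale
          have c2 : p * (p * p ^ (N - 1)) ≤ p ^ (2 * N - v) := by
            rw [← pow_succ', ← pow_succ']
            exact Nat.pow_le_pow_right hp.out.pos (by omega)
          have c3 : p * p ^ (N - 1) + p * p ^ (N - 1) ≤ p * (p * p ^ (N - 1)) := by
            have := Nat.mul_le_mul_right (p * p ^ (N - 1)) h2
            omega
          have c4 : p ^ (N - 1) ≤ p * p ^ (N - 1) := Nat.le_mul_of_pos_left _ hp.out.pos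
          have c5 : 0 < p ^ (N - 1) := pow_pos hp.out.pos _
          omega
        have b2 : i' * p ^ (k + 1) < p ^ (2 * N - l + (k + 1)) := by
          rw [pow_add p (2 * N - l)]
          exact Nat.mul_lt_mul_of_pos_right hlt (pow_pos hp.out.pos _)
        obtain ⟨q1, q2⟩ := lead_unique b1 b2 e1
        have hvl : v < l := by omega
        have hj1 : j' = 1 := by
          by_contra hj1
          exact hgj (ih v hvl j' hj' hj1)
        subst hj1
        have e4 : a = i' * p ^ k := by
          have : p * a = p * (i' * p ^ k) := by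
            rw [pow_succ] at q2
            have : p * a = i' * (p ^ k * p) := by simpa using q2
            rw [this]; ring
          exact Nat.eq_of_mul_eq_mul_left hp.out.pos this
        have hkl : k < l := by omega
        have := ih k hkl i' hi' hi1
        rw [← e4] at this
        exact (mem_support_iff.mp ha) this
    · intro hx
      rw [Finset.mem_product, not_and_or] at hx
      have : g.coeff (i' * p ^ l) * G.coeff (p ^ (2 * N)) = 0 := by
        rcases hx with h | h
        · simp only [notMem_support_iff] at h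
          rw [h, zero_mul]
        · simp only [notMem_support_iff] at h
          rw [h, mul_zero]
      simp only [this, ite_self]
  rw [hsum, coeff_G_top hN hdeg R4, mul_one, ← two_mul] at hL
  rcases mul_eq_zero.mp hL with h | h
  · exact two_ne_zero_zmod h5 h
  · exact hne h

/-- explicit form of `g` -/
theorem g_form (hadd : ∀ (l i' : ℕ), ¬ p ∣ i' → i' ≠ 1 → g.coeff (i' * p ^ l) = 0)
    (hdeg : g.natDegree ≤ p ^ (N - 1)) (hN : 1 ≤ N) :
    g = C (g.coeff 0) + ∑ v ∈ Finset.range N, C (g.coeff (p ^ v)) * X ^ p ^ v := by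
  classical
  ext a
  rw [coeff_add, finsetSum_coeff, coeff_C]
  simp only [coeff_C_mul_X_pow]
  by_cases h0 : a = 0
  · subst h0
    rw [if_pos rfl, Finset.sum_eq_zero, add_zero]
    intro v _
    rw [if_neg]
    exact (pow_pos hp.out.pos v).ne
  · rw [if_neg h0, zero_add]
    obtain ⟨l, i', hi', hai⟩ := Nat.exists_eq_pow_mul_and_not_dvd (n := a) h0 p hp.out.ne_one
    have hai' : a = i' * p ^ l := by rw [hai, mul_comm]
    by_cases h1 : i' = 1
    · subst h1
      rw [one_mul] at hai'
      subst hai'
      by_cases hl : l < N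
      · rw [Finset.sum_eq_single l]
        · rw [if_pos rfl]
        · intro v _ hv
          rw [if_neg]
          intro h
          exact hv (Nat.pow_right_injective hp.out.two_le h).symm
        · intro h
          exact absurd (Finset.mem_range.mpr hl) h
      · rw [Finset.sum_eq_zero, coeff_eq_zero_of_natDegree_lt]
        · exact lt_of_le_of_lt hdeg (Nat.pow_lt_pow_right hp.out.one_lt (by omega))
        · intro v hv
          rw [if_neg]
          intro h
          have := Nat.pow_right_injective hp.out.two_le h
          rw [Finset.mem_range] at hv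
          omega
    · rw [hai', hadd l i' hi' h1, Finset.sum_eq_zero]
      intro v _
      rw [if_neg]
      intro h
      have h2 : i' * p ^ l = 1 * p ^ v := by rw [one_mul]; exact h
      exact h1 (part_unique hi' not_dvd_one h2).2

include hN hdeg R4 in
/-- explicit form of `G` -/
theorem G_form (hadd : ∀ (l i' : ℕ), ¬ p ∣ i' → i' ≠ 1 → g.coeff (i' * p ^ l) = 0) :
    G = X ^ p ^ (2 * N) + C (G.coeff 0) +
      ∑ v ∈ Finset.range N, C (g.coeff (p ^ v)) * X ^ p ^ (2 * N - v - 1) := by
  classical
  have h2 := hp.out.two_le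
  have hinj : ∀ {a b : ℕ}, p ^ a = p ^ b → a = b := fun h => Nat.pow_right_injective h2 h
  have hcv : ∀ v, v < N → G.coeff (p ^ (2 * N - v - 1)) = g.coeff (p ^ v) := by
    intro v hv
    have := coeff_G hN hdeg R4 (i' := 1) (l := v) (c := p ^ (2 * N - v - 1)) not_dvd_one
      (by rw [one_mul]; exact Nat.pow_le_pow_right hp.out.pos (by omega))
      (by
        rw [← pow_succ']
        have : 2 * N - v - 1 + 1 = 2 * N - v := by omega
        rw [this]; ring)
    rw [this, one_mul]
  ext c
  rw [coeff_add, coeff_add, finsetSum_coeff, coeff_C, coeff_X_pow]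
  simp only [coeff_C_mul_X_pow]
  by_cases hD : c = p ^ (2 * N)
  · subst hD
    rw [if_pos rfl, if_neg (pow_pos hp.out.pos _).ne', Finset.sum_eq_zero,
      coeff_G_top hN hdeg R4]
    · ring
    · intro v _
      rw [if_neg]
      intro h
      have := hinj h
      omega
  · rw [if_neg hD, zero_add]
    by_cases h0 : c = 0
    · subst h0
      rw [if_pos rfl, Finset.sum_eq_zero, add_zero]
      intro v _
      rw [if_neg]
      exact (pow_pos hp.out.pos _).ne
    · rw [if_neg h0, zero_add]
      by_cases hex : ∃ v, v < N ∧ c = p ^ (2 * N - v - 1)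
      · obtain ⟨v, hv, rfl⟩ := hex
        rw [Finset.sum_eq_single v]
        · rw [if_pos rfl, hcv v hv]
        · intro w hw hwv
          rw [if_neg]
          intro h
          have := hinj h
          rw [Finset.mem_range] at hw
          omega
        · intro h
          exact absurd (Finset.mem_range.mpr hv) h
      · rw [Finset.sum_eq_zero]
        · by_contra hne
          rcases supp_G hN hdeg R4 hne with h | h | ⟨j', v, hj', hgj, hcj⟩
          · exact hD h
          · exact h0 h
          · have hj1 : j' = 1 := by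
              by_contra hj1
              exact hgj (hadd v j' hj' hj1)
            subst hj1
            have hjle : 1 * p ^ v ≤ p ^ (N - 1) := supp_le hdeg (mem_support_iff.mpr hgj)
            obtain ⟨hv, _, _⟩ := level_lt hN one_pos hjle
            apply hex
            refine ⟨v, by omega, ?_⟩
            have e1 : p * c = p * p ^ (2 * N - v - 1) := by
              rw [← pow_succ']
              have : 2 * N - v - 1 + 1 = 2 * N - v := by omega
              rw [this]; omega
            exact Nat.eq_of_mul_eq_mul_left hp.out.pos e1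
        · intro v hv
          rw [if_neg]
          intro h
          exact hex ⟨v, Finset.mem_range.mp hv, h⟩

end Sys

end Pool.Agent.H367R2.RP
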