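import Pool.Agent.H367R2.RP.Comb2

open Polynomial

namespace Pool.Agent.H367R2.RP

variable {p : ℕ} [hp : Fact p.Prime]

theorem Lf_C_mul_pow_zero {e : ℕ} (he : ¬ p ∣ e) (he1 : e ≠ 1) (c : ZMod p) (m : ℕ) :
    Lf p e (C c * X ^ p ^ m) = 0 := by
  classical
  rw [Lf_C_mul_X_pow, if_neg]
  rintro ⟨k, hk⟩
  have h1 : 1 * p ^ m = e * p ^ k := by rw [one_mul]; exact hk
  exact he1 (part_unique not_dvd_one he h1).2.symm

theorem Lf_C_zero {e : ℕ} (he : ¬ p ∣ e) (c : ZMod p) : Lf p e (C c) = 0 := by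
  classical
  have : (C c : (ZMod p)[X]) = C c * X ^ 0 := by simp
  rw [this, Lf_C_mul_X_pow, if_neg]
  rintro ⟨k, hk⟩
  have h0 : 0 < e := Nat.pos_of_ne_zero (by rintro rfl; exact he (dvd_zero _))
  have := Nat.mul_pos h0 (pow_pos hp.out.pos k)
  omega

theorem Lf_prod {N l : ℕ} (hN : 1 ≤ N) (hl : l < N) (γ : ℕ → ZMod p) (c0 c1 : ZMod p) :
    Lf p (1 + p ^ (2 * N - l))
      ((C c0 + ∑ v ∈ Finset.range N, C (γ v) * X ^ p ^ v) *
        (X ^ p ^ (2 * N) + C c1 + ∑ v ∈ Finset.range N, C (γ v) * X ^ p ^ (2 * N - v - 1))) =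
    γ l + ∑ k ∈ Finset.range N, ∑ v ∈ Finset.range N,
      (if k + v + 1 = l then γ k * γ v else 0) := by
  classical
  set e := 1 + p ^ (2 * N - l) with hedef
  have he : ¬ p ∣ e := not_dvd_add_pow not_dvd_one (by omega)
  have he1 : e ≠ 1 := by
    have := pow_pos hp.out.pos (2 * N - l)
    omega
  set A : (ZMod p)[X] := ∑ v ∈ Finset.range N, C (γ v) * X ^ p ^ v with hA
  set B : (ZMod p)[X] := ∑ v ∈ Finset.range N, C (γ v) * X ^ p ^ (2 * N - v - 1) with hB
  have hexp : (C c0 + A) * (X ^ p ^ (2 * N) + C c1 + B) =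
      C c0 * X ^ p ^ (2 * N) + C (c0 * c1) + C c0 * B + A * X ^ p ^ (2 * N) + C c1 * A + A * B := by
    rw [C_mul]; ring
  have t1 : Lf p e (C c0 * B) = 0 := by
    rw [hB, Finset.mul_sum, map_sum]
    refine Finset.sum_eq_zero fun v _ => ?_
    rw [← mul_assoc, ← C_mul]
    exact Lf_C_mul_pow_zero he he1 _ _
  have t2 : Lf p e (C c1 * A) = 0 := by
    rw [hA, Finset.mul_sum, map_sum]
    refine Finset.sum_eq_zero fun v _ => ?_
    rw [← mul_assoc, ← C_mul]
    exact Lf_C_mul_pow_zero he he1 _ _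
  have t3 : Lf p e (A * X ^ p ^ (2 * N)) = γ l := by
    rw [hA, Finset.sum_mul, map_sum]
    have : ∀ v ∈ Finset.range N, Lf p e (C (γ v) * X ^ p ^ v * X ^ p ^ (2 * N)) =
        if v = l then γ v else 0 := by
      intro v hv
      rw [Finset.mem_range] at hv
      rw [mul_assoc, ← pow_add, Lf_C_mul_X_pow]
      refine if_congr ?_ rfl rfl
      have h1 := orb_D hN (i' := 1) (l := l) (a := p ^ v) one_pos
        (by rw [one_mul]; exact Nat.pow_le_pow_right hp.out.pos (by omega))
        (Nat.pow_le_pow_right hp.out.pos (by omega))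
      rw [hedef]
      rw [h1, one_mul]
      constructor
      · intro h
        exact Nat.pow_right_injective hp.out.two_le h
      · rintro rfl; rfl
    rw [Finset.sum_congr rfl this, Finset.sum_ite_eq' (Finset.range N), if_pos]
    exact Finset.mem_range.mpr hl
  have t4 : Lf p e (A * B) = ∑ k ∈ Finset.range N, ∑ v ∈ Finset.range N,
      (if k + v + 1 = l then γ k * γ v else 0) := by
    rw [hA, hB, Finset.sum_mul, map_sum]
    refine Finset.sum_congr rfl fun k hk => ?_
    rw [Finset.mul_sum, map_sum]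
    refine Finset.sum_congr rfl fun v hv => ?_
    rw [Finset.mem_range] at hk hv
    have : C (γ k) * X ^ p ^ k * (C (γ v) * X ^ p ^ (2 * N - v - 1)) =
        C (γ k * γ v) * X ^ (p ^ k + p ^ (2 * N - v - 1)) := by
      rw [C_mul, pow_add]; ring
    rw [this, Lf_C_mul_X_pow]
    refine if_congr ?_ rfl rfl
    have hsplit : p ^ k + p ^ (2 * N - v - 1) = (1 + p ^ (2 * N - v - 1 - k)) * p ^ k := by
      rw [add_mul, one_mul, ← pow_add]
      have : 2 * N - v - 1 - k + k = 2 * N - v - 1 := by omega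
      rw [this]
    rw [hsplit]
    constructor
    · rintro ⟨k', hk'⟩
      have h1 := part_unique (not_dvd_add_pow not_dvd_one (by omega)) he hk'
      have h2 := h1.2
      rw [hedef] at h2
      have h3 : 2 * N - v - 1 - k = 2 * N - l :=
        Nat.pow_right_injective hp.out.two_le (Nat.add_left_cancel h2)
      omega
    · intro h
      refine ⟨k, ?_⟩
      have : 2 * N - v - 1 - k = 2 * N - l := by omega
      rw [this]
  rw [hexp, map_add, map_add, map_add, map_add, map_add, t1, t2, t3, t4,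
    Lf_C_mul_pow_zero he he1, Lf_C_zero he]
  ring

section Sys

variable {N : ℕ} (hN : 1 ≤ N) {g G : (ZMod p)[X]} (hdeg : g.natDegree ≤ p ^ (N - 1))
variable (R4 : InAS p (X * X ^ p ^ (2 * N + 1) + g * X ^ p ^ (2 * N) - X * G ^ p))
  (R3 : InAS p (X * G ^ p + g * G -
    (X * X ^ p ^ (2 * N + 1) + X * X ^ p ^ (2 * N) + X * X ^ p ^ 2 + X * X ^ p ^ 1)))

include hN hdeg R4 R3 in
theorem recur (h5 : 5 ≤ p) (hN2 : 2 ≤ N) {l : ℕ} (hl : l < N) :
    2 * g.coeff (p ^ l) + ∑ k ∈ Finset.range N, ∑ v ∈ Finset.range N,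
      (if k + v + 1 = l then g.coeff (p ^ k) * g.coeff (p ^ v) else 0) =
    if l = 0 then 1 else 0 := by
  classical
  have hadd := additive hN hdeg R4 R3 h5
  have hg := g_form hadd hdeg hN
  have hG := G_form hN hdeg R4 hadd
  have he : ¬ p ∣ 1 + p ^ (2 * N - l) := not_dvd_add_pow not_dvd_one (by omega)
  have hL := Lf_inAS he R3
  have hprod : Lf p (1 + p ^ (2 * N - l)) (g * G) = g.coeff (p ^ l) +
      ∑ k ∈ Finset.range N, ∑ v ∈ Finset.range N,
      (if k + v + 1 = l then g.coeff (p ^ k) * g.coeff (p ^ v) else 0) := by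
    have h1 := Lf_prod (p := p) hN hl (fun v => g.coeff (p ^ v)) (g.coeff 0) (G.coeff 0)
    rw [← hg, ← hG] at h1
    exact h1
  have hc := coeff_g hN hdeg R4 (i' := 1) (l := l) not_dvd_one
    (by rw [one_mul]; exact Nat.pow_le_pow_right hp.out.pos (by omega))
  rw [one_mul] at hc
  have hinj : ∀ j, (1 + p ^ (2 * N - l) = 1 + p ^ j) ↔ 2 * N - l = j := by
    intro j
    constructor
    · intro h
      exact Nat.pow_right_injective hp.out.two_le (Nat.add_left_cancel h)
    · rintro rfl; rfl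
  rw [map_sub, map_add, map_add, map_add, map_add, LXX he (by omega), LXX he (by omega),
    LXX he (by omega), LXX he (by omega), ← hc, hprod] at hL
  simp only [hinj] at hL
  rw [if_neg (by omega : ¬ 2 * N - l = 2 * N + 1), if_neg (by omega : ¬ 2 * N - l = 2),
    if_neg (by omega : ¬ 2 * N - l = 1)] at hL
  have hif : (if 2 * N - l = 2 * N then (1 : ZMod p) else 0) = if l = 0 then 1 else 0 :=
    if_congr (by omega) rfl rfl
  rw [hif] at hL
  linear_combination hL

end Sys

/-- The coefficients of the square root of `1 + X` (apart from the constant term). -/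
noncomputable def bet (p : ℕ) [Fact p.Prime] (v : ℕ) : ZMod p :=
  (1 / 2) * (-1 / 4) ^ v * (catalan v : ZMod p)

theorem bet_zero : bet p 0 = 1 / 2 := by simp [bet]

theorem bet_rec (h5 : 5 ≤ p) (l : ℕ) : 2 * bet p (l + 1) +
    ∑ k ∈ Finset.range (l + 1), bet p k * bet p (l - k) = 0 := by
  have h2 := two_ne_zero_zmod h5
  have h4 : (4 : ZMod p) ≠ 0 := by
    have : (4 : ZMod p) = 2 * 2 := by norm_num
    rw [this]; exact mul_ne_zero h2 h2
  have h1 : ∀ k ∈ Finset.range (l + 1), bet p k * bet p (l - k) =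
      (1 / 4) * (-1 / 4) ^ l * ((catalan k * catalan (l - k) : ℕ) : ZMod p) := by
    intro k hk
    rw [Finset.mem_range] at hk
    unfold bet
    have : ((-1 : ZMod p) / 4) ^ l = (-1 / 4) ^ k * (-1 / 4) ^ (l - k) := by
      rw [← pow_add]; congr 1; omega
    rw [this]
    push_cast
    have h22 : (1 : ZMod p) / 4 = (1 / 2) * (1 / 2) := by
      field_simp; norm_num
    rw [h22]
    ring
  rw [Finset.sum_congr rfl h1, ← Finset.mul_sum, ← Nat.cast_sum]
  have h3 : ∑ i ∈ Finset.range (l + 1), catalan i * catalan (l - i) = catalan (l + 1) := by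
    rw [catalan_succ', Finset.Nat.sum_antidiagonal_eq_sum_range_succ_mk]
  rw [h3]
  unfold bet
  rw [pow_succ]
  field_simp
  ring

theorem double_sum {R : Type} [CommRing R] {N l : ℕ} (hl : l < N) (γ : ℕ → R) :
    (∑ k ∈ Finset.range N, ∑ v ∈ Finset.range N, (if k + v + 1 = l then γ k * γ v else 0)) =
    ∑ k ∈ Finset.range l, γ k * γ (l - 1 - k) := by
  classical
  have h1 : ∀ k ∈ Finset.range N, (∑ v ∈ Finset.range N,
      (if k + v + 1 = l then γ k * γ v else 0)) = if k < l then γ k * γ (l - 1 - k) else 0 := by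
    intro k _
    by_cases hk : k < l
    · rw [if_pos hk, Finset.sum_eq_single (l - 1 - k)]
      · rw [if_pos (by omega)]
      · intro v _ hv
        rw [if_neg (by omega)]
      · intro h
        rw [Finset.mem_range] at h
        omega
    · rw [if_neg hk]
      refine Finset.sum_eq_zero fun v _ => ?_
      rw [if_neg (by omega)]
  rw [Finset.sum_congr rfl h1, ← Finset.sum_filter]
  congr 1
  ext k
  simp only [Finset.mem_filter, Finset.mem_range]
  omega

/-- The unique solution of the recurrence. -/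
theorem rec_unique (h5 : 5 ≤ p) {N : ℕ} {γ : ℕ → ZMod p}
    (h : ∀ l < N, 2 * γ l + ∑ k ∈ Finset.range l, γ k * γ (l - 1 - k) = if l = 0 then 1 else 0) :
    ∀ l < N, γ l = bet p l := by
  have h2 := two_ne_zero_zmod h5
  intro l
  induction l using Nat.strong_induction_on with
  | _ l ih =>
  intro hl
  have h1 := h l hl
  rcases l with _ | l
  · rw [if_pos rfl] at h1
    rw [bet_zero]
    field_simp
    simpa [mul_comm] using h1
  · rw [if_neg (by omega)] at h1
    have h3 := bet_rec (p := p) h5 l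
    have h4 : ∑ k ∈ Finset.range (l + 1), γ k * γ (l + 1 - 1 - k) =
        ∑ k ∈ Finset.range (l + 1), bet p k * bet p (l - k) := by
      refine Finset.sum_congr rfl fun k hk => ?_
      rw [Finset.mem_range] at hk
      rw [ih k (by omega) (by omega), ih (l + 1 - 1 - k) (by omega) (by omega)]
      rfl
    rw [h4] at h1
    have h6 : 2 * γ (l + 1) = 2 * bet p (l + 1) := by linear_combination h1 - h3
    exact mul_left_cancel₀ h2 h6

/-- The conclusion of the combinatorial part: `g` is explicit. -/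
theorem g_explicit (h5 : 5 ≤ p) {N : ℕ} (hN2 : 2 ≤ N) {g G : (ZMod p)[X]}
    (hdeg : g.natDegree ≤ p ^ (N - 1))
    (R4 : InAS p (X * X ^ p ^ (2 * N + 1) + g * X ^ p ^ (2 * N) - X * G ^ p))
    (R3 : InAS p (X * G ^ p + g * G -
      (X * X ^ p ^ (2 * N + 1) + X * X ^ p ^ (2 * N) + X * X ^ p ^ 2 + X * X ^ p ^ 1))) :
    g = C (g.coeff 0) + ∑ v ∈ Finset.range N, C (bet p v) * X ^ p ^ v := by
  have hN : 1 ≤ N := by omega
  have hadd := additive hN hdeg R4 R3 h5
  have hg := g_form hadd hdeg hN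
  have hrec : ∀ l < N, 2 * g.coeff (p ^ l) + ∑ k ∈ Finset.range l,
      g.coeff (p ^ k) * g.coeff (p ^ (l - 1 - k)) = if l = 0 then 1 else 0 := by
    intro l hl
    have h1 := recur hN hdeg R4 R3 h5 hN2 hl
    rw [double_sum hl (fun v => g.coeff (p ^ v))] at h1
    exact h1
  have hu := rec_unique (γ := fun v => g.coeff (p ^ v)) h5 hrec
  refine hg.trans ?_
  congr 1
  refine Finset.sum_congr rfl fun v hv => ?_
  rw [hu v (Finset.mem_range.mp hv)]

end Pool.Agent.H367R2.RP
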