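import Mathlib

/-!
Projective varieties over a field, rational maps to the projective line, effective divisors on
the projective line, pull-backs and `v`-adic approach of sequences of rational points.
-/

open MvPolynomial

namespace Pool.Agent.H367R2.RP

/-- A projective variety over the field `k`: an integral closed subscheme of the projective space
`P^n` over `k`, given by its ideal, a homogeneous prime ideal of `k[x_0, ..., x_n]` which does not
contain all the variables. -/
structure ProjVariety (k : Type) [Field k] (n : ℕ) where
  /-- the homogeneous ideal -/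
  ideal : Ideal (MvPolynomial (Fin (n + 1)) k)
  isPrime : ideal.IsPrime
  isHomogeneous : ∀ F ∈ ideal, ∀ d : ℕ, homogeneousComponent d F ∈ ideal
  exists_notMem : ∃ i, (X i : MvPolynomial (Fin (n + 1)) k) ∉ ideal

namespace ProjVariety

variable {k : Type} [Field k] {n : ℕ}

/-- The vectors of homogeneous coordinates of the `L`-points of `V`, where `L` is a field
containing `k`. -/
def Pts (V : ProjVariety k n) (L : Type) [Field L] [Algebra k L] : Set (Fin (n + 1) → L) :=
  {x | x ≠ 0 ∧ ∀ F ∈ V.ideal, aeval x F = 0}

/-- `V(k)` is Zariski dense in `V`: every homogeneous polynomial over `k` which vanishes at all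
`k`-points of `V` vanishes on `V`. -/
def DensePts (V : ProjVariety k n) : Prop :=
  ∀ (F : MvPolynomial (Fin (n + 1)) k) (d : ℕ), F.IsHomogeneous d →
    (∀ x ∈ V.Pts k, aeval x F = 0) → F ∈ V.ideal

/-- `V` has positive dimension: it has infinitely many geometric points, that is, there is an
infinite set of coordinate vectors of points over the algebraic closure, no two of which are
proportional. -/
def PosDim (V : ProjVariety k n) : Prop :=
  ∃ S : Set (Fin (n + 1) → AlgebraicClosure k), S.Infinite ∧ S ⊆ V.Pts (AlgebraicClosure k) ∧
    ∀ x ∈ S, ∀ y ∈ S, x ≠ y → ∀ c : AlgebraicClosure k, x ≠ c • y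

end ProjVariety

/-- A rational map from the projective variety `V` to the projective line `P^1` over `k`, given by
two homogeneous polynomials of the same degree, not both vanishing on `V`. -/
structure RatMapP1 {k : Type} [Field k] {n : ℕ} (V : ProjVariety k n) where
  /-- the first form -/
  F₀ : MvPolynomial (Fin (n + 1)) k
  /-- the second form -/
  F₁ : MvPolynomial (Fin (n + 1)) k
  /-- the common degree -/
  deg : ℕ
  hom₀ : F₀.IsHomogeneous deg
  hom₁ : F₁.IsHomogeneous deg
  notMem : F₀ ∉ V.ideal ∨ F₁ ∉ V.ideal

/-- An effective nonzero (Cartier) divisor `D > 0` on the projective line over `k`: the zero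
divisor of a nonzero binary form over `k` of positive degree. -/
structure EffDivP1 (k : Type) [Field k] where
  /-- the binary form -/
  H : MvPolynomial (Fin 2) k
  /-- its degree, that is, the degree of the divisor -/
  deg : ℕ
  hom : H.IsHomogeneous deg
  ne_zero : H ≠ 0
  pos : 0 < deg

namespace RatMapP1

variable {k : Type} [Field k] {n : ℕ} {V : ProjVariety k n}

/-- `f` is dominant: no nonzero binary form vanishes on the image of `f`. -/
def Dominant (f : RatMapP1 V) : Prop :=
  ∀ (H : MvPolynomial (Fin 2) k) (d : ℕ), H.IsHomogeneous d → H ≠ 0 →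
    aeval ![f.F₀, f.F₁] H ∉ V.ideal

/-- `f.Value L x w`: the rational map `f` is defined at the `L`-point `x` of `V`, and `w` is a
vector of homogeneous coordinates of its value. Here `f` is defined at `x` when some pair
`(A₀, A₁)` of homogeneous polynomials over `k` of the same degree represents `f` on `V`
and does not vanish at `x`. -/
def Value (f : RatMapP1 V) (L : Type) [Field L] [Algebra k L] (x : Fin (n + 1) → L)
    (w : Fin 2 → L) : Prop :=
  x ∈ V.Pts L ∧ w ≠ 0 ∧ ∃ (A₀ A₁ : MvPolynomial (Fin (n + 1)) k) (e : ℕ),
    A₀.IsHomogeneous e ∧ A₁.IsHomogeneous e ∧ A₀ * f.F₁ - A₁ * f.F₀ ∈ V.ideal ∧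
      w = ![aeval x A₀, aeval x A₁]

/-- The homogeneous polynomials over `k` vanishing on the pull-back of the divisor `D`, that is,
on the Zariski closure of the inverse image of the support of `D` under `f` restricted to its
domain of definition (as a set of points over the algebraic closure of `k`). -/
def PullIdeal (f : RatMapP1 V) (D : EffDivP1 k) : Set (MvPolynomial (Fin (n + 1)) k) :=
  {F | (∃ d, F.IsHomogeneous d) ∧ ∀ x w, f.Value (AlgebraicClosure k) x w →
    aeval w D.H = 0 → aeval x F = 0}

/-- The `L`-points of the closed subset `f^* D` of `V`. -/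
def PullPts (f : RatMapP1 V) (D : EffDivP1 k) (L : Type) [Field L] [Algebra k L] :
    Set (Fin (n + 1) → L) :=
  {x | x ∈ V.Pts L ∧ ∀ F ∈ f.PullIdeal D, aeval x F = 0}

end RatMapP1

/-- The norm of a coordinate vector: the maximum of the absolute values of its entries. -/
noncomputable def vnorm {k : Type} [Field k] {Γ : Type} [LinearOrderedCommGroupWithZero Γ]
    (v : Valuation k Γ) {n : ℕ} (x : Fin (n + 1) → k) : Γ :=
  Finset.univ.sup' Finset.univ_nonempty fun i => v (x i)

/-- The sequence `P` of `k`-points of `P^n` approaches, with respect to the absolute value `v`,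
the closed subset of `P^n` defined by the vanishing of the homogeneous polynomials in `I`: for all
`F` in `I`, of degree `d`, the quotient `v (F (P i)) / (vnorm v (P i)) ^ d` (which only depends on
the point, not on its homogeneous coordinates) tends to zero. Equivalently, a local Weil function
of the closed subset tends to infinity along `P`. -/
def Approaches {k : Type} [Field k] {Γ : Type} [LinearOrderedCommGroupWithZero Γ]
    (v : Valuation k Γ) {n : ℕ} (I : Set (MvPolynomial (Fin (n + 1)) k))
    (P : ℕ → Fin (n + 1) → k) : Prop :=
  ∀ F ∈ I, ∀ d : ℕ, F.IsHomogeneous d → ∀ ε : Γ, ε ≠ 0 →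
    ∃ i₀ : ℕ, ∀ i ≥ i₀, v (aeval (P i) F) < ε * (vnorm v (P i)) ^ d

/-- The assertion that the rational map `f` from `V` to `P^1`, together with the open subset of `V`
where the homogeneous polynomial `Φ` does not vanish, is a counterexample at the place `v`:
`V(k)` is dense, `V` has positive dimension, `f` is dominant, the open subset is nonempty and, for
every effective divisor `D > 0` on `P^1` over `k`, no sequence of `k`-points of the open subset
outside `f^* D` approaches `f^* D` with respect to `v`. -/
def IsCounterexample {k : Type} [Field k] {Γ : Type} [LinearOrderedCommGroupWithZero Γ]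
    (v : Valuation k Γ) {n : ℕ} (V : ProjVariety k n) (f : RatMapP1 V)
    (Φ : MvPolynomial (Fin (n + 1)) k) : Prop :=
  V.DensePts ∧ V.PosDim ∧ f.Dominant ∧ (∃ d, Φ.IsHomogeneous d) ∧ Φ ∉ V.ideal ∧
    ∀ D : EffDivP1 k, ¬ ∃ P : ℕ → Fin (n + 1) → k,
      (∀ i, P i ∈ V.Pts k ∧ aeval (P i) Φ ≠ 0 ∧ P i ∉ f.PullPts D k) ∧
        Approaches v (f.PullIdeal D) P

end Pool.Agent.H367R2.RP
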