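import Pool.Agent.H367R2.RP.Struct

open Polynomial

namespace Pool.Agent.H367R2.RP

variable {p : ℕ} [hp : Fact p.Prime]

/-- the linear functional sending `X ^ m` to `φ m` -/
noncomputable def evl {M : Type} [AddCommGroup M] [Module (ZMod p) M] (φ : ℕ → M) :
    (ZMod p)[X] →ₗ[ZMod p] M :=
  Polynomial.lsum (fun m => LinearMap.toSpanSingleton (ZMod p) M (φ m))

theorem evl_C_mul_X_pow {M : Type} [AddCommGroup M] [Module (ZMod p) M] (φ : ℕ → M) (a : ZMod p)
    (m : ℕ) : evl φ (C a * X ^ m) = a • φ m := by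
  unfold evl
  rw [Polynomial.lsum_apply, C_mul_X_pow_eq_monomial, Polynomial.sum_monomial_index]
  · simp
  · simp

theorem evl_X_pow {M : Type} [AddCommGroup M] [Module (ZMod p) M] (φ : ℕ → M)
    (m : ℕ) : evl (p := p) φ (X ^ m) = φ m := by
  have := evl_C_mul_X_pow (p := p) φ 1 m
  rwa [C_1, one_mul, one_smul] at this

theorem one_add_X_pow (N : ℕ) : ((1 + X) ^ N : (ZMod p)[X]) =
    ∑ k ∈ Finset.range (N + 1), C (N.choose k : ZMod p) * X ^ k := by
  rw [add_comm, add_pow]
  refine Finset.sum_congr rfl fun k _ => ?_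
  rw [one_pow, mul_one, mul_comm]
  simp

theorem conv_sum {M : Type} [AddCommGroup M] [Module (ZMod p) M] (φ : ℕ → M) {N s : ℕ}
    (hNs : 2 * N = p ^ s + 1) :
    (∑ i ∈ Finset.range (N + 1), ∑ j ∈ Finset.range (N + 1),
      ((N.choose i : ZMod p) * (N.choose j : ZMod p)) • φ (i + j)) =
    φ 0 + φ 1 + φ (2 * N - 1) + φ (2 * N) := by
  have h1 : ((1 + X) ^ N * (1 + X) ^ N : (ZMod p)[X]) = X ^ 0 + X ^ 1 + X ^ (2 * N - 1) +
      X ^ (2 * N) := by
    rw [← pow_add, ← two_mul, hNs, pow_succ, add_pow_char_pow, one_pow]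
    have : p ^ s + 1 - 1 = p ^ s := rfl
    rw [this, pow_succ]
    ring
  have h2 := congrArg (evl (p := p) φ) h1
  rw [map_add, map_add, map_add, evl_X_pow, evl_X_pow, evl_X_pow, evl_X_pow] at h2
  rw [← h2, one_add_X_pow, Finset.sum_mul, map_sum]
  refine Finset.sum_congr rfl fun i _ => ?_
  rw [Finset.mul_sum, map_sum]
  refine Finset.sum_congr rfl fun j _ => ?_
  have : (C (N.choose i : ZMod p) * X ^ i * (C (N.choose j : ZMod p) * X ^ j) : (ZMod p)[X]) =
      C ((N.choose i : ZMod p) * (N.choose j : ZMod p)) * X ^ (i + j) := by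
    rw [C_mul, pow_add]; ring
  rw [this, evl_C_mul_X_pow]

theorem InAS.smul' {R : Type} [CommRing R] [Algebra (ZMod p) R] (c : ZMod p) {x : R}
    (hx : InAS p x) : InAS p (c • x) := by
  rw [Algebra.smul_def]; exact hx.smul c

/-- The solution with parameter `N`. -/
noncomputable def Zs (p : ℕ) [Fact p.Prime] (N : ℕ) : (ZMod p)[X] :=
  ∑ k ∈ Finset.range (N + 1), C (N.choose k : ZMod p) * X ^ p ^ k

theorem io_C (c : ZMod p) (x : (ZMod p)[X]) : io p (C c * x) = c • io p x := by
  rw [map_mul, Algebra.smul_def]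
  rfl

theorem exists_sol {N s : ℕ} (hNs : 2 * N = p ^ s + 1) :
    ∃ g G b b' d d' : KK p, Sys p (io p (Zs p N)) g G b b' d d' := by
  have hps : 1 ≤ p ^ s := Nat.one_le_pow _ _ hp.out.pos
  have hN : 1 ≤ N := by omega
  set t : KK p := io p X with ht
  have ht0 : t ≠ 0 := by
    rw [ht, Ne, map_eq_zero_iff _ io_inj]; exact X_ne_zero
  set a : ℕ → ZMod p := fun k => (N.choose k : ZMod p) with ha
  have hsym : ∀ k, k ≤ N → a (N - k) = a k := by
    intro k hk
    simp only [ha]
    rw [Nat.choose_symm hk]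
  have hpw : ∀ (c : ZMod p) (x : KK p), (c • x) ^ p = c • x ^ p := by
    intro c x
    rw [_root_.smul_pow, zmod_pow]
  have hz : io p (Zs p N) = ∑ k ∈ Finset.range (N + 1), a k • t ^ p ^ k := by
    unfold Zs
    rw [map_sum]
    refine Finset.sum_congr rfl fun k _ => ?_
    rw [io_C, map_pow]
  have hz' : io p (Zs p N) = ∑ k ∈ Finset.range (N + 1), a k • t ^ p ^ (N - k) := by
    rw [hz, ← Finset.sum_range_reflect]
    refine Finset.sum_congr rfl fun k hk => ?_
    rw [Finset.mem_range] at hk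
    have : N + 1 - 1 - k = N - k := by omega
    rw [this, hsym k (by omega)]
  set G : KK p := ∑ k ∈ Finset.range (N + 1), a k • t ^ p ^ (2 * N - k) with hG
  have hGp : G ^ p = ∑ k ∈ Finset.range (N + 1), a k • t ^ p ^ (2 * N + 1 - k) := by
    rw [hG, sum_pow_char]
    refine Finset.sum_congr rfl fun k hk => ?_
    rw [Finset.mem_range] at hk
    rw [hpw, ← pow_mul, ← pow_succ]
    have : 2 * N - k + 1 = 2 * N + 1 - k := by omega
    rw [this]
  refine ⟨∑ k ∈ Finset.range N, a (k + 1) • t ^ p ^ k, G, t ^ p ^ (N - 1),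
    (1 / t) ^ p ^ (N - 1), t ^ p ^ (2 * N), (1 / t) ^ p ^ (2 * N), ?_, ?_, ?_, ?_, ?_, ?_, ?_,
    ?_, ?_, ?_, ?_⟩
  · rw [hz, sum_pow_char, Finset.sum_range_succ', add_comm]
    congr 1
    · have ha0 : a 0 = 1 := by simp [ha]
      rw [ha0, one_smul, pow_zero, pow_one]
    · refine Finset.sum_congr rfl fun k _ => ?_
      rw [hpw, ← pow_mul, ← pow_succ]
  · rw [← mul_pow, mul_one_div_cancel ht0, one_pow]
  · exact InAS.frob_iter t (N - 1)
  · exact InAS.frob_iter (1 / t) (N - 1)
  · rw [← mul_pow, mul_one_div_cancel ht0, one_pow]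
  · exact InAS.frob_iter t (2 * N)
  · exact InAS.frob_iter (1 / t) (2 * N)
  · -- e8
    have h1 : (io p (Zs p N)) ^ 2 = ∑ i ∈ Finset.range (N + 1), ∑ j ∈ Finset.range (N + 1),
        (a i * a j) • (t ^ p ^ i * t ^ p ^ (N - j)) := by
      rw [pow_two]
      conv_lhs => rw [hz]; rhs; rw [← hz, hz']
      rw [Finset.sum_mul_sum]
      refine Finset.sum_congr rfl fun i _ => Finset.sum_congr rfl fun j _ => ?_
      rw [smul_mul_smul_comm]
    have h2 := conv_sum (p := p) (fun m => t ^ (1 + p ^ ((N - m) + (m - N)))) hNs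
    have h3 : 2 * t * (t ^ p ^ (N - 1) + (t ^ p ^ (N - 1)) ^ p) =
        ∑ i ∈ Finset.range (N + 1), ∑ j ∈ Finset.range (N + 1),
        (a i * a j) • t ^ (1 + p ^ ((N - (i + j)) + (i + j - N))) := by
      rw [h2]
      have e1 : N - 0 + (0 - N) = (N - 1) + 1 := by omega
      have e2 : N - 1 + (1 - N) = N - 1 := by omega
      have e3 : N - (2 * N - 1) + (2 * N - 1 - N) = N - 1 := by omega
      have e4 : N - 2 * N + (2 * N - N) = (N - 1) + 1 := by omega
      simp only [e1, e2, e3, e4]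
      rw [← pow_mul, ← pow_succ, pow_add t 1, pow_add t 1, pow_one]
      ring
    rw [h1, h3, ← Finset.sum_sub_distrib]
    refine InAS.sum _ _ fun i hi => ?_
    rw [← Finset.sum_sub_distrib]
    refine InAS.sum _ _ fun j hj => ?_
    rw [← smul_sub]
    apply InAS.smul'
    rw [Finset.mem_range] at hi hj
    rcases le_total (i + j) N with hij | hij
    · have e1 : t ^ p ^ i * t ^ p ^ (N - j) = (t ^ (1 + p ^ (N - (i + j) + (i + j - N)))) ^ p ^ i := by
        have e2 : N - (i + j) + (i + j - N) = N - (i + j) := by omega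
        have e3 : N - j = N - (i + j) + i := by omega
        rw [e2, e3, ← pow_add, ← pow_mul, add_mul, one_mul, ← pow_add]
      rw [e1]
      exact InAS.frob_iter _ _
    · have e1 : t ^ p ^ i * t ^ p ^ (N - j) =
          (t ^ (1 + p ^ (N - (i + j) + (i + j - N)))) ^ p ^ (N - j) := by
        have e2 : N - (i + j) + (i + j - N) = i + j - N := by omega
        have e3 : p ^ i = p ^ (i + j - N) * p ^ (N - j) := by
          rw [← pow_add]; congr 1; omega
        rw [e2, e3, ← pow_add, ← pow_mul, add_mul, one_mul, add_comm]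
      rw [e1]
      exact InAS.frob_iter _ _
  · -- e9
    have e1 : t ^ p ^ (2 * N) * t ^ p ^ (N - 1) = (t ^ (1 + p ^ (N + 1))) ^ p ^ (N - 1) := by
      have e3 : p ^ (2 * N) = p ^ (N + 1) * p ^ (N - 1) := by
        rw [← pow_add]; congr 1; omega
      rw [e3, ← pow_add, ← pow_mul, add_mul, one_mul, add_comm]
    have e2 : t * (t ^ p ^ (N - 1)) ^ p ^ 2 = t ^ (1 + p ^ (N + 1)) := by
      have e3 : p ^ (N - 1) * p ^ 2 = p ^ (N + 1) := by
        rw [← pow_add]; congr 1; omega
      rw [← pow_mul, e3, pow_add t 1, pow_one]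
    rw [e1, ← ht, e2]
    exact InAS.frob_iter _ _
  · -- e10
    rw [hz, hGp, Finset.sum_mul, ← ht, Finset.mul_sum, ← Finset.sum_sub_distrib]
    refine InAS.sum _ _ fun k hk => ?_
    rw [Finset.mem_range] at hk
    rw [smul_mul_assoc, mul_smul_comm, ← smul_sub]
    apply InAS.smul'
    have e1 : t ^ p ^ k * (t ^ p ^ (2 * N)) ^ p = (t * t ^ p ^ (2 * N + 1 - k)) ^ p ^ k := by
      have e3 : p ^ (2 * N) * p = p ^ (2 * N + 1 - k) * p ^ k := by
        rw [← pow_add, ← pow_succ]; congr 1; omega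
      rw [mul_pow, ← pow_mul, ← pow_mul, e3]
    rw [e1]
    exact InAS.frob_iter _ _
  · -- e11
    have h1 : io p (Zs p N) * G ^ p = ∑ i ∈ Finset.range (N + 1), ∑ j ∈ Finset.range (N + 1),
        (a i * a j) • (t ^ p ^ i * t ^ p ^ (2 * N + 1 - j)) := by
      rw [hz, hGp, Finset.sum_mul_sum]
      refine Finset.sum_congr rfl fun i _ => Finset.sum_congr rfl fun j _ => ?_
      rw [smul_mul_smul_comm]
    have h2 := conv_sum (p := p) (fun m => t * t ^ p ^ (2 * N + 1 - m)) hNs
    have h3 : t * ((t ^ p ^ (2 * N)) ^ p + t ^ p ^ (2 * N) + t ^ p ^ 2 + t ^ p) =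
        ∑ i ∈ Finset.range (N + 1), ∑ j ∈ Finset.range (N + 1),
        (a i * a j) • (t * t ^ p ^ (2 * N + 1 - (i + j))) := by
      rw [h2]
      have e1 : 2 * N + 1 - 0 = 2 * N + 1 := by omega
      have e2 : 2 * N + 1 - 1 = 2 * N := by omega
      have e3 : 2 * N + 1 - (2 * N - 1) = 2 := by omega
      have e4 : 2 * N + 1 - 2 * N = 1 := by omega
      simp only [e1, e2, e3, e4]
      rw [← pow_mul, ← pow_succ, pow_one]
      ring
    rw [h1, h3, ← Finset.sum_sub_distrib]
    refine InAS.sum _ _ fun i hi => ?_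
    rw [← Finset.sum_sub_distrib]
    refine InAS.sum _ _ fun j hj => ?_
    rw [← smul_sub]
    apply InAS.smul'
    rw [Finset.mem_range] at hi hj
    have e1 : t ^ p ^ i * t ^ p ^ (2 * N + 1 - j) = (t * t ^ p ^ (2 * N + 1 - (i + j))) ^ p ^ i := by
      have e3 : p ^ (2 * N + 1 - j) = p ^ (2 * N + 1 - (i + j)) * p ^ i := by
        rw [← pow_add]; congr 1; omega
      rw [mul_pow, ← pow_mul, ← e3]
    rw [e1]
    exact InAS.frob_iter _ _

theorem Zs_coeff_self (N : ℕ) : (Zs p N).coeff (p ^ N) = 1 := by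
  classical
  unfold Zs
  rw [finsetSum_coeff, Finset.sum_eq_single N]
  · simp
  · intro k _ hk
    rw [coeff_C_mul_X_pow, if_neg]
    intro h
    exact hk (Nat.pow_right_injective hp.out.two_le h).symm
  · intro h
    simp at h

theorem Zs_coeff_lt {M N : ℕ} (h : M < N) : (Zs p M).coeff (p ^ N) = 0 := by
  classical
  unfold Zs
  rw [finsetSum_coeff]
  refine Finset.sum_eq_zero fun k hk => ?_
  rw [Finset.mem_range] at hk
  rw [coeff_C_mul_X_pow, if_neg]
  intro h'
  have := Nat.pow_right_injective hp.out.two_le h'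
  omega

theorem Zs_inj : Function.Injective (Zs p) := by
  intro M N h
  rcases lt_trichotomy M N with h1 | h1 | h1
  · have h2 := Zs_coeff_lt (p := p) h1
    rw [h, Zs_coeff_self] at h2
    exact absurd h2 one_ne_zero
  · exact h1
  · have h2 := Zs_coeff_lt (p := p) h1
    rw [← h, Zs_coeff_self] at h2
    exact absurd h2 one_ne_zero

/-- the system has infinitely many solutions -/
theorem infinite_sol (h5 : 5 ≤ p) :
    {z : KK p | ∃ g G b b' d d' : KK p, Sys p z g G b b' d d'}.Infinite := by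
  have hodd : ∀ s, ∃ N, 2 * N = p ^ s + 1 := by
    intro s
    have h1 : Odd (p ^ s) := by
      apply Odd.pow
      exact hp.out.odd_of_ne_two (by omega)
    obtain ⟨k, hk⟩ := h1
    exact ⟨k + 1, by omega⟩
  choose N hN using hodd
  have hNinj : Function.Injective N := by
    intro s s' h
    have h1 := hN s
    have h2 := hN s'
    rw [h, h2] at h1
    exact Nat.pow_right_injective hp.out.two_le (by simpa using h1.symm)
  refine Set.infinite_of_injective_forall_mem
    (f := fun s => io p (Zs p (N s))) ?_ ?_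
  · intro s s' h
    exact hNinj (Zs_inj (io_inj h))
  · intro s
    exact exists_sol (hN s)

end Pool.Agent.H367R2.RP
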