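import Pool.Agent.H367R2.RP.AS

open Polynomial

namespace Pool.Agent.H367R2.RP

variable {p : ℕ} [hp : Fact p.Prime]

open Classical in
/-- the sum of the coefficients of `f` at the exponents `e * p ^ k` -/
noncomputable def Lf (p : ℕ) [Fact p.Prime] (e : ℕ) : (ZMod p)[X] →ₗ[ZMod p] ZMod p :=
  Polynomial.lsum (fun m => if ∃ k, m = e * p ^ k then LinearMap.id else 0)

open Classical in
theorem Lf_monomial (e m : ℕ) (a : ZMod p) :
    Lf p e (monomial m a) = if ∃ k, m = e * p ^ k then a else 0 := by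
  unfold Lf
  rw [Polynomial.lsum_apply, Polynomial.sum_monomial_index]
  · split_ifs <;> simp
  · split_ifs <;> simp

open Classical in
theorem Lf_C_mul_X_pow (e m : ℕ) (a : ZMod p) :
    Lf p e (C a * X ^ m) = if ∃ k, m = e * p ^ k then a else 0 := by
  rw [C_mul_X_pow_eq_monomial, Lf_monomial]

open Classical in
theorem Lf_X_pow (e m : ℕ) :
    Lf p e (X ^ m) = if ∃ k, m = e * p ^ k then 1 else 0 := by
  rw [X_pow_eq_monomial, Lf_monomial]

theorem orb_mul {e m : ℕ} (he : ¬ p ∣ e) :
    (∃ k, m * p = e * p ^ k) ↔ ∃ k, m = e * p ^ k := by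
  constructor
  · rintro ⟨k, hk⟩
    rcases k with _ | k
    · exfalso
      apply he
      rw [pow_zero, mul_one] at hk
      rw [← hk]
      exact Dvd.intro_left _ rfl
    · refine ⟨k, ?_⟩
      rw [pow_succ, ← mul_assoc] at hk
      exact Nat.eq_of_mul_eq_mul_right hp.out.pos hk
  · rintro ⟨k, hk⟩
    refine ⟨k + 1, ?_⟩
    rw [hk, pow_succ, mul_assoc]

theorem Lf_pow {e : ℕ} (he : ¬ p ∣ e) (f : (ZMod p)[X]) : Lf p e (f ^ p) = Lf p e f := by
  classical
  induction f using Polynomial.induction_on' with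
  | add f g hf hg => rw [add_pow_char, map_add, map_add, hf, hg]
  | monomial m a =>
    rw [monomial_pow, zmod_pow, Lf_monomial, Lf_monomial]
    exact if_congr (orb_mul he) rfl rfl

theorem Lf_inAS {e : ℕ} (he : ¬ p ∣ e) {f : (ZMod p)[X]} (hf : InAS p f) : Lf p e f = 0 := by
  obtain ⟨u, rfl⟩ := hf
  rw [map_sub, Lf_pow he, sub_self]

theorem Lf_X_mul_pow (c : ℕ) (G : (ZMod p)[X]) : Lf p (p * c + 1) (X * G ^ p) = G.coeff c := by
  classical
  induction G using Polynomial.induction_on' with
  | add f g hf hg => rw [add_pow_char, mul_add, map_add, hf, hg, coeff_add]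
  | monomial m a =>
    rw [monomial_pow, zmod_pow, ← monomial_one_one_eq_X, monomial_mul_monomial, one_mul,
      Lf_monomial, coeff_monomial]
    have hiff : (∃ k, 1 + m * p = (p * c + 1) * p ^ k) ↔ m = c := by
      constructor
      · rintro ⟨k, hk⟩
        rcases k with _ | k
        · rw [pow_zero, mul_one] at hk
          have h1 : m * p = c * p := by linarith
          exact Nat.eq_of_mul_eq_mul_right hp.out.pos h1
        · exfalso
          have h1 : p ∣ 1 + m * p := by
            rw [hk, pow_succ]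
            exact Dvd.dvd.mul_left (Dvd.intro_left _ rfl) _
          have h2 : p ∣ 1 := (Nat.dvd_add_left (Dvd.intro_left _ rfl)).mp h1
          exact hp.out.one_lt.ne' (Nat.dvd_one.mp h2)
      · rintro rfl
        exact ⟨0, by ring⟩
    simp only [hiff]

theorem Lf_X_mul_pow_zero {e : ℕ} (he1 : ∀ c, e ≠ p * c + 1) (G : (ZMod p)[X]) :
    Lf p e (X * G ^ p) = 0 := by
  classical
  induction G using Polynomial.induction_on' with
  | add f g hf hg => rw [add_pow_char, mul_add, map_add, hf, hg, add_zero]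
  | monomial m a =>
    rw [monomial_pow, zmod_pow, ← monomial_one_one_eq_X, monomial_mul_monomial, one_mul,
      Lf_monomial]
    rw [if_neg]
    rintro ⟨k, hk⟩
    rcases k with _ | k
    · rw [pow_zero, mul_one] at hk
      exact he1 m (by rw [← hk]; ring)
    · have h1 : p ∣ 1 + m * p := by
        rw [hk, pow_succ]
        exact Dvd.dvd.mul_left (Dvd.intro_left _ rfl) _
      have h2 : p ∣ 1 := (Nat.dvd_add_left (Dvd.intro_left _ rfl)).mp h1
      exact hp.out.one_lt.ne' (Nat.dvd_one.mp h2)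

open Classical in
theorem Lf_mul (e : ℕ) (f g : (ZMod p)[X]) : Lf p e (f * g) =
    ∑ x ∈ f.support ×ˢ g.support,
      if ∃ k, x.1 + x.2 = e * p ^ k then f.coeff x.1 * g.coeff x.2 else 0 := by
  rw [Polynomial.mul_eq_sum_sum, map_sum, Finset.sum_product]
  refine Finset.sum_congr rfl fun a _ => ?_
  rw [Polynomial.sum_def, map_sum]
  refine Finset.sum_congr rfl fun c _ => ?_
  rw [Lf_monomial]

omit hp in
theorem not_dvd_add_pow {x m : ℕ} (hx : ¬ p ∣ x) (hm : m ≠ 0) : ¬ p ∣ x + p ^ m := by
  intro h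
  exact hx ((Nat.dvd_add_left (dvd_pow_self p hm)).mp h)

/-- uniqueness of the leading power -/
theorem lead_unique {x y m n : ℕ} (hx : x < p ^ m) (hy : y < p ^ n) (h : x + p ^ m = y + p ^ n) :
    m = n ∧ x = y := by
  have h2 := hp.out.two_le
  have key : ∀ {x y m n : ℕ}, x < p ^ m → x + p ^ m = y + p ^ n → ¬ m < n := by
    intro x y m n hx h hmn
    have h3 : p ^ (m + 1) ≤ p ^ n := Nat.pow_le_pow_right hp.out.pos hmn
    rw [pow_succ] at h3
    nlinarith
  have e1 : m = n := by
    have a1 := key hx h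
    have a2 := key hy h.symm
    omega
  subst e1
  exact ⟨rfl, by omega⟩

/-- uniqueness of the prime-to-`p` part -/
theorem part_unique {x y m n : ℕ} (hx : ¬ p ∣ x) (hy : ¬ p ∣ y) (h : x * p ^ m = y * p ^ n) :
    m = n ∧ x = y := by
  have hpp := hp.out.pos
  have key : ∀ {x y m n : ℕ}, ¬ p ∣ x → x * p ^ m = y * p ^ n → ¬ m < n := by
    intro x y m n hx h hmn
    apply hx
    obtain ⟨c, rfl⟩ := Nat.exists_eq_add_of_lt hmn
    have : x * p ^ m = (y * p ^ c * p) * p ^ m := by rw [h]; ring
    have := Nat.eq_of_mul_eq_mul_right (pow_pos hpp m) this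
    rw [this]
    exact Dvd.intro_left _ rfl
  have e1 : m = n := by
    have a1 := key hx h
    have a2 := key hy h.symm
    omega
  subst e1
  exact ⟨rfl, Nat.eq_of_mul_eq_mul_right (pow_pos hpp m) h⟩

end Pool.Agent.H367R2.RP
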