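import Pool.Agent.H367R2.RP.AS

open Polynomial

namespace Pool.Agent.H367R2.RP

variable {p : ℕ} [hp : Fact p.Prime]

/-- an element `u ^ p - u` in lowest terms -/
theorem as_lowest (u : KK p) : ∃ (U γ : (ZMod p)[X]), γ.Monic ∧ IsCoprime U γ ∧
    IsCoprime (U ^ p - U * γ ^ (p - 1)) (γ ^ p) ∧
    (u ^ p - u) * io p (γ ^ p) = io p (U ^ p - U * γ ^ (p - 1)) := by
  have h2 := hp.out.two_le
  refine ⟨u.num, u.denom, RatFunc.monic_denom u, RatFunc.isCoprime_num_denom u, ?_, ?_⟩
  · have hc := RatFunc.isCoprime_num_denom u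
    apply IsCoprime.pow_right
    have h1 : u.num ^ p - u.num * u.denom ^ (p - 1) =
        u.num ^ p + u.denom * (-(u.num * u.denom ^ (p - 2))) := by
      have : p - 1 = (p - 2) + 1 := by omega
      rw [this, pow_succ]
      ring
    rw [h1]
    exact (IsCoprime.pow_left hc).add_mul_left_left _
  · have hd : io p u.denom ≠ 0 := by
      rw [Ne, map_eq_zero_iff _ io_inj]
      exact RatFunc.denom_ne_zero u
    have hg : u = io p u.num / io p u.denom := (RatFunc.num_div_denom u).symm
    have hu : u * io p u.denom = io p u.num := (eq_div_iff hd).mp hg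
    rw [map_sub, map_mul, map_pow, map_pow, map_pow, ← hu]
    have e1 : io p u.denom ^ p = io p u.denom ^ (p - 1) * io p u.denom :=
      (pow_sub_one_mul hp.out.ne_zero _).symm
    rw [mul_pow, sub_mul]
    congr 1
    rw [e1]
    ring

theorem pow_aux (h5 : 5 ≤ p) : ∀ (n : ℕ) (B C₁ : (ZMod p)[X]), IsCoprime B C₁ → C₁.Monic → B ≠ 0 →
    B.natDegree + C₁.natDegree ≤ n → InAS p (io p B / io p C₁ - io p X) →
    InAS p (io p C₁ / io p B - 1 / io p X) → ∃ s : ℕ, io p B / io p C₁ = io p X ^ p ^ s := by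
  intro n
  induction n using Nat.strong_induction_on with
  | _ n ih =>
  intro B C₁ hcop hmon hB hn h1 h2
  have hC0 : io p C₁ ≠ 0 := by
    rw [Ne, map_eq_zero_iff _ io_inj]; exact hmon.ne_zero
  have hB0 : io p B ≠ 0 := by
    rw [Ne, map_eq_zero_iff _ io_inj]; exact hB
  have hX0 : io p X ≠ 0 := by
    rw [Ne, map_eq_zero_iff _ io_inj]; exact X_ne_zero
  obtain ⟨u, hu⟩ := h1
  obtain ⟨v, hv⟩ := h2
  obtain ⟨U, γ, hγ, hUγ, hcopU, heqU⟩ := as_lowest u
  obtain ⟨V, δ, hδ, hVδ, hcopV, heqV⟩ := as_lowest v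
  -- first relation
  have r1 : (B - X * C₁) * γ ^ p = C₁ * (U ^ p - U * γ ^ (p - 1)) := by
    apply io_inj
    rw [map_mul, map_mul, ← heqU, hu, map_sub, map_mul]
    field_simp
  have hc1 : IsCoprime (B - X * C₁) C₁ := by
    have : B - X * C₁ = B + C₁ * (-X) := by ring
    rw [this]
    exact hcop.add_mul_left_left _
  have hd1 : C₁ ∣ γ ^ p := by
    have : C₁ ∣ (B - X * C₁) * γ ^ p := by rw [r1]; exact Dvd.intro _ rfl
    exact hc1.symm.dvd_of_dvd_mul_left this
  have hd2 : γ ^ p ∣ C₁ := by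
    have : γ ^ p ∣ C₁ * (U ^ p - U * γ ^ (p - 1)) := by rw [← r1]; exact Dvd.intro_left _ rfl
    exact hcopU.symm.dvd_of_dvd_mul_right this
  have hCγ : C₁ = γ ^ p := by
    apply Polynomial.eq_of_monic_of_associated hmon (hγ.pow p)
    exact associated_of_dvd_dvd hd1 hd2
  -- second relation
  have r2 : (X * C₁ - B) * δ ^ p = X * B * (V ^ p - V * δ ^ (p - 1)) := by
    apply io_inj
    rw [map_mul, map_mul, ← heqV, hv, map_sub, map_mul, map_mul]
    field_simp
  have hd3 : δ ^ p ∣ X * B := by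
    have : δ ^ p ∣ X * B * (V ^ p - V * δ ^ (p - 1)) := by rw [← r2]; exact Dvd.intro_left _ rfl
    exact hcopV.symm.dvd_of_dvd_mul_right this
  obtain ⟨κ, hκ⟩ := hd3
  have hδ0 : δ ^ p ≠ 0 := pow_ne_zero _ hδ.ne_zero
  have r3 : X * C₁ - B = κ * (V ^ p - V * δ ^ (p - 1)) := by
    have : δ ^ p * (X * C₁ - B) = δ ^ p * (κ * (V ^ p - V * δ ^ (p - 1))) := by
      rw [mul_comm, r2, hκ]; ring
    exact mul_left_cancel₀ hδ0 this
  have hκ2 : κ ∣ X ^ 2 := by
    obtain ⟨a, b, hab⟩ := hcop
    have k1 : κ ∣ X * B := by rw [hκ]; exact Dvd.intro_left _ rfl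
    have k2 : κ ∣ X * C₁ - B := by rw [r3]; exact Dvd.intro _ rfl
    have : (X : (ZMod p)[X]) ^ 2 = (a * X + b) * (X * B) + b * X * (X * C₁ - B) := by
      have : (X : (ZMod p)[X]) ^ 2 = X ^ 2 * (a * B + b * C₁) := by rw [hab, mul_one]
      rw [this]
      ring
    rw [this]
    exact dvd_add (Dvd.dvd.mul_left k1 _) (Dvd.dvd.mul_left k2 _)
  obtain ⟨i, hi, hass⟩ := (dvd_prime_pow Polynomial.prime_X 2).mp hκ2
  obtain ⟨w, hw⟩ := hass.symm
  obtain ⟨c₀, hc₀, hcw⟩ := Polynomial.isUnit_iff.mp w.isUnit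
  have hc₀0 : c₀ ≠ 0 := hc₀.ne_zero
  have hκ3 : κ = X ^ i * C c₀ := by rw [← hw, ← hcw]
  have hγ0 : io p γ ≠ 0 := by
    rw [Ne, map_eq_zero_iff _ io_inj]; exact hγ.ne_zero
  have hcp : (C c₀ : (ZMod p)[X]) ^ p = C c₀ := by rw [← C_pow, zmod_pow]
  interval_cases i
  · -- impossible
    exfalso
    rw [pow_zero, one_mul] at hκ3
    have hXδ : X ∣ δ := by
      have : X ∣ δ ^ p * C c₀ := by rw [← hκ3, ← hκ]; exact Dvd.intro _ rfl
      rcases Polynomial.prime_X.dvd_or_dvd this with h | h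
      · exact Polynomial.prime_X.dvd_of_dvd_pow h
      · exfalso
        exact Polynomial.prime_X.not_isUnit (isUnit_of_dvd_unit h (isUnit_C.mpr hc₀))
    have hXB : X ∣ B := by
      have h3 : X ^ 2 ∣ δ ^ p :=
        (pow_dvd_pow_of_dvd hXδ 2).trans (pow_dvd_pow δ (by omega))
      have h4 : X ^ 2 ∣ X * B := by rw [hκ]; exact Dvd.dvd.mul_right h3 _
      rw [pow_two] at h4
      exact (mul_dvd_mul_iff_left X_ne_zero).mp h4
    have hXV : X ∣ V := by
      have h3 : X ∣ κ * (V ^ p - V * δ ^ (p - 1)) := by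
        rw [← r3]
        exact dvd_sub (Dvd.intro _ rfl) hXB
      rw [hκ3] at h3
      rcases Polynomial.prime_X.dvd_or_dvd h3 with h | h
      · exfalso
        exact Polynomial.prime_X.not_isUnit (isUnit_of_dvd_unit h (isUnit_C.mpr hc₀))
      · have h5' : X ∣ V * δ ^ (p - 1) :=
          Dvd.dvd.mul_left (hXδ.trans (dvd_pow_self δ (by omega))) _
        have h6 : X ∣ V ^ p := by
          have := dvd_add h h5'
          rwa [sub_add_cancel] at this
        exact Polynomial.prime_X.dvd_of_dvd_pow h6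
    exact Polynomial.prime_X.not_isUnit (hVδ.isUnit_of_dvd' hXV hXδ)
  · -- `p`-th power
    have hBε : B = (C c₀ * δ) ^ p := by
      rw [pow_one] at hκ3
      have : X * B = X * ((C c₀ * δ) ^ p) := by
        rw [hκ, hκ3, mul_pow, hcp]; ring
      exact mul_left_cancel₀ X_ne_zero this
    set B' := C c₀ * δ with hB'
    have hB'0 : B' ≠ 0 := by
      rintro h
      apply hB
      rw [hBε, h, zero_pow hp.out.ne_zero]
    have hcop' : IsCoprime B' γ := by
      rw [hBε, hCγ] at hcop
      exact (IsCoprime.pow_iff hp.out.pos hp.out.pos).mp hcop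
    have hioB' : io p B' ≠ 0 := by
      rw [Ne, map_eq_zero_iff _ io_inj]; exact hB'0
    have hb : io p B / io p C₁ = (io p B' / io p γ) ^ p := by
      rw [hBε, hCγ, map_pow, map_pow, div_pow]
    have hb' : io p C₁ / io p B = (io p γ / io p B') ^ p := by
      rw [hBε, hCγ, map_pow, map_pow, div_pow]
    have hdeg : B'.natDegree + γ.natDegree < n := by
      rcases Nat.eq_zero_or_pos (B'.natDegree + γ.natDegree) with h | h
      · exfalso
        have hg : γ = 1 := Polynomial.eq_one_of_monic_natDegree_zero hγ (by omega)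
        have hbc : B' = C (B'.coeff 0) := Polynomial.eq_C_of_natDegree_eq_zero (by omega)
        have h3 : InAS p (io p (B' ^ p - X)) := by
          refine ⟨u, ?_⟩
          rw [hu, hBε, hCγ, hg]
          simp
        have h4 := dvd_natDegree_of_inAS (inAS_of_io h3)
        have h5' : (B' ^ p - X).natDegree = 1 := by
          rw [hbc, ← C_pow]
          rw [← neg_sub, natDegree_neg, natDegree_X_sub_C]
        rw [h5'] at h4
        exact hp.out.one_lt.ne' (Nat.dvd_one.mp h4)
      · have e1 : B.natDegree + C₁.natDegree = p * (B'.natDegree + γ.natDegree) := by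
          rw [hBε, hCγ, natDegree_pow, natDegree_pow]
          ring
        rw [e1] at hn
        have := hp.out.two_le
        nlinarith
    obtain ⟨s, hs⟩ := ih _ hdeg B' γ hcop' hγ hB'0 le_rfl
      (by
        have h3 : InAS p (io p B / io p C₁ - io p X) := ⟨u, hu⟩
        rw [hb] at h3
        have h4 := h3.sub (InAS.frob (io p B' / io p γ))
        convert! h4 using 1
        ring)
      (by
        have h3 : InAS p (io p C₁ / io p B - 1 / io p X) := ⟨v, hv⟩
        rw [hb'] at h3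
        have h4 := h3.sub (InAS.frob (io p γ / io p B'))
        convert! h4 using 1
        ring)
    refine ⟨s + 1, ?_⟩
    rw [hb, hs, ← pow_mul, ← pow_succ]
  · -- `t` times a `p`-th power
    have hBε : B = X * (C c₀ * δ) ^ p := by
      have : X * B = X * (X * (C c₀ * δ) ^ p) := by
        rw [hκ, hκ3, mul_pow, hcp]; ring
      exact mul_left_cancel₀ X_ne_zero this
    set B' := C c₀ * δ with hB'
    have hb : io p B / io p C₁ = io p X * (io p B' / io p γ) ^ p := by
      rw [hBε, hCγ, map_mul, map_pow, map_pow, div_pow]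
      ring
    have h3 : InAS p (io p X * (io p B' / io p γ - 1) ^ p) := by
      refine ⟨u, ?_⟩
      rw [hu, hb, sub_pow_char]
      ring
    have h4 := eq_zero_of_inAS h5 h3
    have h6 : io p B' / io p γ = 1 := by
      rw [sub_eq_zero] at h4; exact h4
    refine ⟨0, ?_⟩
    rw [hb, h6]
    simp

/-- existential description of the powers `t ^ p ^ s` (Pheidas) -/
theorem eq_pow (h5 : 5 ≤ p) {b b' : KK p} (hbb : b * b' = 1) (h1 : InAS p (b - io p X))
    (h2 : InAS p (b' - 1 / io p X)) : ∃ s : ℕ, b = io p X ^ p ^ s := by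
  have hb : b ≠ 0 := left_ne_zero_of_mul_eq_one hbb
  have hb' : b' = b⁻¹ := eq_inv_of_mul_eq_one_right hbb
  have hq : b = io p b.num / io p b.denom := (RatFunc.num_div_denom b).symm
  have hn : b.num ≠ 0 := RatFunc.num_ne_zero hb
  rw [hq]
  apply pow_aux h5 _ b.num b.denom (RatFunc.isCoprime_num_denom b) (RatFunc.monic_denom b) hn le_rfl
  · rw [← hq]; exact h1
  · rw [hb'] at h2
    have : io p b.denom / io p b.num = b⁻¹ := by
      conv_rhs => rw [hq]
      rw [inv_div]
    rw [this]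
    exact h2

end Pool.Agent.H367R2.RP
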