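import Pool.Agent.H367R2.RP.Comb3
import Pool.Agent.H367R2.RP.Pow

open Polynomial

namespace Pool.Agent.H367R2.RP

variable {p : ℕ} [hp : Fact p.Prime]

/-- The system of conditions on elements of `F_p(t)`. -/
structure Sys (p : ℕ) [Fact p.Prime] (z g G b b' d d' : KK p) : Prop where
  e1 : z = io p X + g ^ p
  e2 : b * b' = 1
  e3 : InAS p (b - io p X)
  e4 : InAS p (b' - 1 / io p X)
  e5 : d * d' = 1
  e6 : InAS p (d - io p X)
  e7 : InAS p (d' - 1 / io p X)
  e8 : InAS p (z ^ 2 - 2 * io p X * (b + b ^ p))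
  e9 : InAS p (d * b - io p X * b ^ p ^ 2)
  e10 : InAS p (z * d ^ p - io p X * G ^ p)
  e11 : InAS p (z * G ^ p - io p X * (d ^ p + d + io p X ^ p ^ 2 + io p X ^ p))

theorem exp_rel (h5 : 5 ≤ p) {m s : ℕ}
    (h : InAS p (X ^ p ^ m * X ^ p ^ s - X * X ^ p ^ (s + 2) : (ZMod p)[X])) :
    m = 2 * s + 2 := by
  classical
  have he : ¬ p ∣ 1 + p ^ (s + 2) := not_dvd_add_pow not_dvd_one (by omega)
  have hL := Lf_inAS he h
  rw [map_sub, LXX he (by omega), if_pos rfl, ← pow_add, Lf_X_pow] at hL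
  have hex : ∃ k, p ^ m + p ^ s = (1 + p ^ (s + 2)) * p ^ k := by
    by_contra hcon
    rw [if_neg hcon] at hL
    simp at hL
  obtain ⟨k, hk⟩ := hex
  have hinj : ∀ {a b : ℕ}, 1 + p ^ a = 1 + p ^ b → a = b := fun h =>
    Nat.pow_right_injective hp.out.two_le (Nat.add_left_cancel h)
  rcases lt_trichotomy m s with hms | hms | hms
  · have h1 : (1 + p ^ (s - m)) * p ^ m = (1 + p ^ (s + 2)) * p ^ k := by
      rw [← hk, add_mul, one_mul, ← pow_add]
      have : s - m + m = s := by omega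
      rw [this]
    have h2 := hinj (part_unique (not_dvd_add_pow not_dvd_one (by omega)) he h1).2
    omega
  · subst hms
    have h1 : 2 * p ^ m = (1 + p ^ (m + 2)) * p ^ k := by rw [← hk]; ring
    have h2' : ¬ p ∣ 2 := by
      intro h
      have := Nat.le_of_dvd (by norm_num) h
      omega
    have h2 := (part_unique h2' he h1).2
    have h3 : p ^ 2 ≤ p ^ (m + 2) := Nat.pow_le_pow_right hp.out.pos (by omega)
    nlinarith
  · have h1 : (1 + p ^ (m - s)) * p ^ s = (1 + p ^ (s + 2)) * p ^ k := by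
      rw [← hk, add_mul, one_mul, ← pow_add]
      have : m - s + s = m := by omega
      rw [this, add_comm]
    have h2 := hinj (part_unique (not_dvd_add_pow not_dvd_one (by omega)) he h1).2
    omega

theorem natDegree_bound (h5 : 5 ≤ p) {g : (ZMod p)[X]} {s : ℕ}
    (h : InAS p (C 2 * (X * g ^ p) + (g ^ 2 + X ^ 2 -
      C 2 * (X ^ (p ^ s + 1) + X ^ (p ^ (s + 1) + 1))))) : g.natDegree ≤ p ^ s := by
  by_contra hcon
  push Not at hcon
  have h2 := two_ne_zero_zmod h5
  have hps : 1 ≤ p ^ s := Nat.one_le_pow _ _ hp.out.pos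
  have hg0 : g ≠ 0 := by
    rintro rfl
    simp at hcon
  have d1 : (C 2 * (X * g ^ p)).natDegree = p * g.natDegree + 1 := by
    rw [natDegree_C_mul h2, natDegree_X_mul (pow_ne_zero _ hg0), natDegree_pow]
  have d2 : (g ^ 2 + X ^ 2 -
      C 2 * (X ^ (p ^ s + 1) + X ^ (p ^ (s + 1) + 1))).natDegree < p * g.natDegree + 1 := by
    have f1 : (g ^ 2).natDegree ≤ p * g.natDegree := by
      rw [natDegree_pow]
      exact Nat.mul_le_mul_right _ (by omega)
    have f2 : (X ^ 2 : (ZMod p)[X]).natDegree ≤ p * g.natDegree := by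
      rw [natDegree_X_pow]
      nlinarith
    have f3 : p ^ (s + 1) + 1 ≤ p * g.natDegree := by
      have : p * (p ^ s + 1) ≤ p * g.natDegree := Nat.mul_le_mul_left p hcon
      rw [pow_succ']
      nlinarith
    have f4 : p ^ s + 1 ≤ p ^ (s + 1) + 1 :=
      Nat.add_le_add_right (Nat.pow_le_pow_right hp.out.pos (by omega)) 1
    have f5 : (C 2 * (X ^ (p ^ s + 1) + X ^ (p ^ (s + 1) + 1)) : (ZMod p)[X]).natDegree ≤
        p * g.natDegree := by
      refine (natDegree_C_mul_le _ _).trans ?_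
      refine (natDegree_add_le _ _).trans ?_
      rw [natDegree_X_pow, natDegree_X_pow]
      exact max_le (f4.trans f3) f3
    refine Nat.lt_succ_of_le ?_
    refine (natDegree_sub_le _ _).trans (max_le ?_ f5)
    exact (natDegree_add_le _ _).trans (max_le f1 f2)
  have d3 := dvd_natDegree_of_inAS h
  rw [natDegree_add_eq_left_of_natDegree_lt (by rw [d1]; exact d2), d1] at d3
  exact not_dvd_one ((Nat.dvd_add_right (Dvd.intro _ rfl)).mp d3)

/-- All solutions of the system are explicit. -/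
theorem Sys.explicit (h5 : 5 ≤ p) {z g G b b' d d' : KK p} (h : Sys p z g G b b' d d') :
    ∃ (N : ℕ) (Z : (ZMod p)[X]), io p Z = z ∧ Z.natDegree ≤ p ^ N ∧
      (2 ≤ N → ∃ c : ZMod p, Z = C c + (X + ∑ v ∈ Finset.range N, C (bet p v) * X ^ p ^ (v + 1))) := by
  obtain ⟨s, hs⟩ := eq_pow h5 h.e2 h.e3 h.e4
  obtain ⟨m, hm⟩ := eq_pow h5 h.e5 h.e6 h.e7
  -- exponents
  have h9 : InAS p (X ^ p ^ m * X ^ p ^ s - X * X ^ p ^ (s + 2) : (ZMod p)[X]) := by
    apply inAS_of_io
    have := h.e9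
    rw [hs, hm] at this
    simp only [map_sub, map_mul, map_pow]
    convert! this using 3
    rw [← pow_mul, ← pow_add]
  have hm2 := exp_rel h5 h9
  subst hm2
  -- polynomiality of `g`
  have h8 : InAS p (io p (C 2 * X) * g ^ p + io p 1 * g ^ 2 + io p 0 * g +
      io p (X ^ 2 - C 2 * (X ^ (p ^ s + 1) + X ^ (p ^ (s + 1) + 1)))) := by
    have h1 := h.e8.sub (InAS.frob (g ^ 2))
    rw [h.e1, hs] at h1
    convert! h1 using 1
    simp only [map_sub, map_mul, map_pow, map_add, map_one, map_zero]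
    have : io p (C 2) = 2 := by
      have h22 : (C 2 : (ZMod p)[X]) = 2 := map_ofNat C 2
      rw [h22]
      exact map_ofNat (io p) 2
    rw [this, pow_succ p s]
    ring
  obtain ⟨g₀, rfl⟩ := no_poles h5 (two_ne_zero_zmod h5) h8
  have hdeg : g₀.natDegree ≤ p ^ s := by
    apply natDegree_bound h5
    apply inAS_of_io
    convert! h8 using 1
    simp only [map_sub, map_mul, map_pow, map_add, map_one, map_zero]
    ring
  -- polynomiality of `G`
  have h11 : InAS p (io p (C 1 * X) * G ^ p + io p 0 * G ^ 2 + io p g₀ * G +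
      io p (-(X * X ^ p ^ (2 * (s + 1) + 1) + X * X ^ p ^ (2 * (s + 1)) + X * X ^ p ^ 2 +
        X * X ^ p ^ 1))) := by
    have h1 := h.e11.sub (InAS.frob (io p g₀ * G))
    rw [h.e1, hm] at h1
    convert! h1 using 1
    simp only [map_mul, map_pow, map_add, map_one, map_zero, map_neg]
    have e1 : 2 * (s + 1) = 2 * s + 2 := by ring
    rw [e1, pow_succ p (2 * s + 2), pow_one]
    ring
  obtain ⟨G₀, rfl⟩ := no_poles h5 one_ne_zero h11
  have R3 : InAS p (X * G₀ ^ p + g₀ * G₀ -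
      (X * X ^ p ^ (2 * (s + 1) + 1) + X * X ^ p ^ (2 * (s + 1)) + X * X ^ p ^ 2 +
        X * X ^ p ^ 1)) := by
    apply inAS_of_io
    convert! h11 using 1
    simp only [map_sub, map_mul, map_pow, map_add, map_one, map_zero, map_neg]
    ring
  have R4 : InAS p (X * X ^ p ^ (2 * (s + 1) + 1) + g₀ * X ^ p ^ (2 * (s + 1)) - X * G₀ ^ p) := by
    apply inAS_of_io
    have h1 := h.e10.sub (InAS.frob (io p g₀ * d))
    rw [h.e1, hm] at h1
    convert! h1 using 1
    simp only [map_sub, map_mul, map_pow, map_add]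
    have e1 : 2 * (s + 1) = 2 * s + 2 := by ring
    rw [e1, pow_succ p (2 * s + 2)]
    ring
  refine ⟨s + 1, X + g₀ ^ p, ?_, ?_, ?_⟩
  · rw [h.e1, map_add, map_pow]
  · refine (natDegree_add_le _ _).trans (max_le ?_ ?_)
    · rw [natDegree_X]
      exact Nat.one_le_pow _ _ hp.out.pos
    · rw [natDegree_pow, pow_succ']
      exact Nat.mul_le_mul_left p hdeg
  · intro hN2
    have hexp := g_explicit h5 hN2 (g := g₀) (G := G₀) (by simpa using hdeg) R4 R3
    refine ⟨g₀.coeff 0, ?_⟩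
    rw [hexp]
    have hc : (C (g₀.coeff 0) + ∑ v ∈ Finset.range (s + 1), C (bet p v) * X ^ p ^ v).coeff 0 =
        g₀.coeff 0 := by rw [← hexp]
    rw [hc, add_pow_char, ← C_pow, zmod_pow, sum_pow_char]
    have : ∀ v ∈ Finset.range (s + 1), (C (bet p v) * X ^ p ^ v : (ZMod p)[X]) ^ p =
        C (bet p v) * X ^ p ^ (v + 1) := by
      intro v _
      rw [mul_pow, ← C_pow, zmod_pow, ← pow_mul, ← pow_succ]
    rw [Finset.sum_congr rfl this]
    ring

end Pool.Agent.H367R2.RP
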