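import Pool.Agent.H367R2.RP.Defs

open MvPolynomial

namespace Pool.Agent.H367R2.RP

/-- evaluation of a homogeneous polynomial at a scaled vector -/
theorem aeval_mul_of_homog {K A σ : Type} [Field K] [CommRing A] [Algebra K A]
    {F : MvPolynomial σ K} {d : ℕ} (hF : F.IsHomogeneous d) (a : σ → A) (c : A) :
    aeval (fun s => a s * c) F = aeval a F * c ^ d := by
  classical
  have key : ∀ u ∈ F.support, aeval (fun s => a s * c) (monomial u (F.coeff u)) =
      aeval a (monomial u (F.coeff u)) * c ^ d := by
    intro u hu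
    have hd : u.degree = d := by
      have := hF (mem_support_iff.mp hu)
      rw [Finsupp.degree_eq_weight_one]
      exact this
    rw [aeval_monomial, aeval_monomial]
    have : (u.prod fun s k => (a s * c) ^ k) = (u.prod fun s k => a s ^ k) * c ^ d := by
      simp only [Finsupp.prod, mul_pow, Finset.prod_mul_distrib]
      rw [Finset.prod_pow_eq_pow_sum, ← hd]
      rfl
    rw [this, mul_assoc]
  conv_lhs => rw [F.as_sum]
  conv_rhs => rw [F.as_sum]
  rw [map_sum, map_sum, Finset.sum_mul]
  exact Finset.sum_congr rfl key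

/-- choice of a prime ideal -/
theorem exists_prime {K : Type} [Field K] {m : ℕ} (S : Set (Fin (m + 1) → K))
    (hS : ((fun x => x 0) '' S).Infinite) :
    ∃ A ⊆ S, ((fun x => x 0) '' A).Infinite ∧ (vanishingIdeal K A).IsPrime := by
  classical
  let 𝒜 : Set (Ideal (MvPolynomial (Fin (m + 1)) K)) :=
    {I | ∃ A ⊆ S, ((fun x => x 0) '' A).Infinite ∧ I = vanishingIdeal K A}
  have hne : 𝒜.Nonempty := ⟨_, S, subset_rfl, hS, rfl⟩
  obtain ⟨I, ⟨A, hAS, hA, rfl⟩, hmax⟩ :=
    (set_has_maximal_iff_noetherian.mpr
      (inferInstance : IsNoetherian (MvPolynomial (Fin (m + 1)) K) _)) 𝒜 hne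
  refine ⟨A, hAS, hA, ?_⟩
  have hAne : A.Nonempty := by
    have := hA.nonempty
    exact Set.Nonempty.of_image this
  refine ⟨?_, ?_⟩
  · intro h
    obtain ⟨x, hx⟩ := hAne
    have h1 : (1 : MvPolynomial (Fin (m + 1)) K) ∈ vanishingIdeal K A := by
      rw [h]; trivial
    have := h1 x hx
    simp at this
  · intro f g hfg
    by_contra hcon
    push Not at hcon
    obtain ⟨hf, hg⟩ := hcon
    have hcov : A = (A ∩ {x | aeval x f = 0}) ∪ (A ∩ {x | aeval x g = 0}) := by
      ext x
      constructor
      · intro hx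
        have := hfg x hx
        rw [map_mul, mul_eq_zero] at this
        rcases this with h | h
        · exact Or.inl ⟨hx, h⟩
        · exact Or.inr ⟨hx, h⟩
      · rintro (h | h)
        · exact h.1
        · exact h.1
    have hinf : ((fun x => x 0) '' (A ∩ {x | aeval x f = 0})).Infinite ∨
        ((fun x : Fin (m + 1) → K => x 0) '' (A ∩ {x | aeval x g = 0})).Infinite := by
      rw [hcov, Set.image_union, Set.infinite_union] at hA
      exact hA
    have gen : ∀ q : MvPolynomial (Fin (m + 1)) K, q ∉ vanishingIdeal K A →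
        ¬ ((fun x => x 0) '' (A ∩ {x | aeval x q = 0})).Infinite := by
      intro q hq hi
      have hmem : vanishingIdeal K (A ∩ {x | aeval x q = 0}) ∈ 𝒜 :=
        ⟨_, fun x hx => hAS hx.1, hi, rfl⟩
      apply hmax _ hmem
      refine lt_of_le_of_ne (vanishingIdeal_anti_mono Set.inter_subset_left) ?_
      intro heq
      apply hq
      rw [heq]
      intro x hx
      exact hx.2
    rcases hinf with h | h
    · exact gen f hf h
    · exact gen g hg h

section Emb

variable {K : Type} [Field K] {m n : ℕ} (e : Fin (n + 1) ≃ Fin 2 × Fin (m + 2))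

/-- the polynomials of the embedding -/
noncomputable def th (s : Fin (n + 1)) : MvPolynomial (Fin (m + 1)) K :=
  (if (e s).1 = 0 then X 0 else 1) *
    (Fin.cons 1 X : Fin (m + 2) → MvPolynomial (Fin (m + 1)) K) (e s).2

/-- the embedding -/
def phi (x : Fin (m + 1) → K) (s : Fin (n + 1)) : K :=
  (if (e s).1 = 0 then x 0 else 1) * (Fin.cons 1 x : Fin (m + 2) → K) (e s).2

theorem aeval_th (x : Fin (m + 1) → K) (s : Fin (n + 1)) :
    aeval x (th e s : MvPolynomial (Fin (m + 1)) K) = phi e x s := by
  unfold th phi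
  rw [map_mul]
  congr 1
  · split_ifs <;> simp
  · refine Fin.cases ?_ (fun i => ?_) (e s).2
    · simp
    · simp

theorem aeval_aeval_th (x : Fin (m + 1) → K) (F : MvPolynomial (Fin (n + 1)) K) :
    aeval x (aeval (th e : Fin (n + 1) → MvPolynomial (Fin (m + 1)) K) F) =
      aeval (phi e x) F := by
  have h : phi e x = fun s => aeval x (th e s : MvPolynomial (Fin (m + 1)) K) := by
    funext s; rw [aeval_th]
  rw [h, ← AlgHom.comp_apply, comp_aeval]

variable (P : Ideal (MvPolynomial (Fin (m + 1)) K))

/-- the coordinate homomorphism of the cone -/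
noncomputable def psi : MvPolynomial (Fin (n + 1)) K →ₐ[K]
    Polynomial (MvPolynomial (Fin (m + 1)) K ⧸ P) :=
  aeval (fun s => Polynomial.C (Ideal.Quotient.mk P (th e s)) * Polynomial.X)

theorem psi_homog {F : MvPolynomial (Fin (n + 1)) K} {d : ℕ} (hF : F.IsHomogeneous d) :
    psi e P F = Polynomial.C (Ideal.Quotient.mk P (aeval (th e) F)) * Polynomial.X ^ d := by
  have h0 := aeval_mul_of_homog hF (fun s => Polynomial.C (Ideal.Quotient.mk P (th e s)))
    Polynomial.X
  refine Eq.trans h0 ?_
  congr 1
  have : (fun s => Polynomial.C (Ideal.Quotient.mk P (th e s))) =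
      fun s => (Polynomial.CAlgHom.comp (Ideal.Quotient.mkₐ K P)) (th e s) := by
    funext s; rfl
  rw [this, ← comp_aeval]
  rfl

theorem psi_coeff (F : MvPolynomial (Fin (n + 1)) K) (d : ℕ) :
    (psi e P F).coeff d = Ideal.Quotient.mk P (aeval (th e) (homogeneousComponent d F)) := by
  have h1 : psi e P F = ∑ i ∈ Finset.range (F.totalDegree + 1),
      psi e P (homogeneousComponent i F) := by
    conv_lhs => rw [← sum_homogeneousComponent F]
    rw [map_sum]
  rw [h1, Polynomial.finsetSum_coeff]
  have h2 : ∀ i, (psi e P (homogeneousComponent i F)).coeff d =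
      if i = d then Ideal.Quotient.mk P (aeval (th e) (homogeneousComponent i F)) else 0 := by
    intro i
    rw [psi_homog e P (homogeneousComponent_isHomogeneous i F), Polynomial.coeff_C_mul,
      Polynomial.coeff_X_pow]
    by_cases h : i = d
    · simp [h]
    · rw [if_neg h, if_neg (Ne.symm h), mul_zero]
  simp only [h2]
  rw [Finset.sum_ite_eq' (Finset.range (F.totalDegree + 1)) d]
  split_ifs with h
  · rfl
  · rw [homogeneousComponent_eq_zero]
    · simp
    · simpa using h

theorem mem_ker_psi {F : MvPolynomial (Fin (n + 1)) K} :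
    F ∈ RingHom.ker (psi e P) ↔ ∀ d, aeval (th e) (homogeneousComponent d F) ∈ P := by
  rw [RingHom.mem_ker]
  constructor
  · intro h d
    have := psi_coeff e P F d
    rw [h, Polynomial.coeff_zero] at this
    exact Ideal.Quotient.eq_zero_iff_mem.mp this.symm
  · intro h
    ext d
    rw [psi_coeff, Polynomial.coeff_zero]
    rw [Ideal.Quotient.eq_zero_iff_mem.mpr (h d)]

theorem mem_ker_psi_of_homog {F : MvPolynomial (Fin (n + 1)) K} {d : ℕ} (hF : F.IsHomogeneous d) :
    F ∈ RingHom.ker (psi e P) ↔ aeval (th e) F ∈ P := by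
  rw [RingHom.mem_ker, psi_homog e P hF]
  constructor
  · intro h
    have := congrArg (fun q => Polynomial.coeff q d) h
    simp only [Polynomial.coeff_C_mul, Polynomial.coeff_X_pow_self, mul_one,
      Polynomial.coeff_zero] at this
    exact Ideal.Quotient.eq_zero_iff_mem.mp this
  · intro h
    rw [Ideal.Quotient.eq_zero_iff_mem.mpr h]
    simp

end Emb

end Pool.Agent.H367R2.RP
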