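import Pool.Agent.H367R2.RP.Trans

open MvPolynomial

namespace Pool.Agent.H367R2.RP

section Var

variable {K : Type} [Field K] {m n : ℕ} (e : Fin (n + 1) ≃ Fin 2 × Fin (m + 2))
  (P : Ideal (MvPolynomial (Fin (m + 1)) K))

/-- the labelled variables -/
noncomputable def Y (c : Fin 2) (j : Fin (m + 2)) : MvPolynomial (Fin (n + 1)) K :=
  X (e.symm (c, j))

theorem Y_homog (c : Fin 2) (j : Fin (m + 2)) :
    (Y e c j : MvPolynomial (Fin (n + 1)) K).IsHomogeneous 1 := isHomogeneous_X _ _

theorem th_Y (c : Fin 2) (j : Fin (m + 2)) :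
    aeval (th e : Fin (n + 1) → MvPolynomial (Fin (m + 1)) K)
      (Y e c j : MvPolynomial (Fin (n + 1)) K) =
      (if c = 0 then X 0 else 1) *
        (Fin.cons 1 X : Fin (m + 2) → MvPolynomial (Fin (m + 1)) K) j := by
  simp [Y, th]

/-- the projective variety attached to a prime ideal -/
noncomputable def variety (hP : P.IsPrime) : ProjVariety K n where
  ideal := RingHom.ker (psi e P)
  isPrime := RingHom.ker_isPrime _
  isHomogeneous := by
    intro F hF d
    rw [mem_ker_psi_of_homog e P (homogeneousComponent_isHomogeneous d F)]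
    exact (mem_ker_psi e P).mp hF d
  exists_notMem := by
    refine ⟨e.symm (1, 0), ?_⟩
    intro h
    have h1 : (Y e 1 0 : MvPolynomial (Fin (n + 1)) K) ∈ RingHom.ker (psi e P) := h
    rw [mem_ker_psi_of_homog e P (Y_homog e 1 0), th_Y] at h1
    simp only [one_ne_zero, if_false, Fin.cons_zero, mul_one] at h1
    exact hP.ne_top ((Ideal.eq_top_iff_one P).mpr h1)

theorem mem_variety (hP : P.IsPrime) {F : MvPolynomial (Fin (n + 1)) K} {d : ℕ}
    (hF : F.IsHomogeneous d) :
    F ∈ (variety e P hP).ideal ↔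
      aeval (th e : Fin (n + 1) → MvPolynomial (Fin (m + 1)) K) F ∈ P :=
  mem_ker_psi_of_homog e P hF

theorem Y10_notMem (hP : P.IsPrime) : (Y e 1 0 : MvPolynomial (Fin (n + 1)) K) ∉
    (variety e P hP).ideal := by
  intro h1
  rw [mem_variety e P hP (Y_homog e 1 0), th_Y] at h1
  simp only [one_ne_zero, if_false, Fin.cons_zero, mul_one] at h1
  exact hP.ne_top ((Ideal.eq_top_iff_one P).mpr h1)

theorem phi_mem {A : Set (Fin (m + 1) → K)} (hP : (vanishingIdeal K A).IsPrime)
    {x : Fin (m + 1) → K} (hx : x ∈ A) :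
    phi e x ∈ (variety e (vanishingIdeal K A) hP).Pts K := by
  refine ⟨?_, ?_⟩
  · intro h
    have := congrFun h (e.symm (1, 0))
    simp [phi] at this
  · intro F hF
    rw [← sum_homogeneousComponent F, map_sum]
    refine Finset.sum_eq_zero fun d _ => ?_
    rw [← aeval_aeval_th]
    exact (mem_ker_psi e _).mp hF d x hx

theorem dense {A : Set (Fin (m + 1) → K)} (hP : (vanishingIdeal K A).IsPrime) :
    (variety e (vanishingIdeal K A) hP).DensePts := by
  intro F d hF h
  rw [mem_variety e _ hP hF]
  intro x hx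
  rw [aeval_aeval_th]
  exact h _ (phi_mem e hP hx)

/-- the affine coordinates -/
def aff (y : Fin (n + 1) → K) (i : Fin (m + 1)) : K :=
  y (e.symm (1, i.succ)) / y (e.symm (1, 0))

theorem pts_rel (hP : P.IsPrime) {L : Type} [Field L] [Algebra K L] {y : Fin (n + 1) → L}
    (hy : y ∈ (variety e P hP).Pts L) (j : Fin (m + 2)) :
    y (e.symm (0, j)) * y (e.symm (1, 0)) = y (e.symm (1, 1)) * y (e.symm (1, j)) := by
  have h : (Y e 0 j * Y e 1 0 - Y e 1 1 * Y e 1 j : MvPolynomial (Fin (n + 1)) K) ∈
      (variety e P hP).ideal := by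
    have hh : (Y e 0 j * Y e 1 0 - Y e 1 1 * Y e 1 j :
        MvPolynomial (Fin (n + 1)) K).IsHomogeneous (1 + 1) :=
      ((Y_homog e _ _).mul (Y_homog e _ _)).sub ((Y_homog e _ _).mul (Y_homog e _ _))
    rw [mem_variety e P hP hh, map_sub, map_mul, map_mul, th_Y, th_Y, th_Y, th_Y]
    have : ((Fin.cons 1 X : Fin (m + 2) → MvPolynomial (Fin (m + 1)) K) 1) = X 0 := rfl
    rw [this]
    simp
  have := hy.2 _ h
  rw [map_sub, map_mul, map_mul, sub_eq_zero] at this
  simpa [Y] using this

theorem pts_eq (hP : P.IsPrime) {y : Fin (n + 1) → K}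
    (hy : y ∈ (variety e P hP).Pts K) (h0 : y (e.symm (1, 0)) ≠ 0) (c : Fin 2)
    (j : Fin (m + 2)) :
    y (e.symm (c, j)) = (if c = 0 then aff e y 0 else 1) * y (e.symm (1, j)) := by
  have h1 := pts_rel e P hP hy j
  by_cases hc : c = 0
  · subst hc
    rw [if_pos rfl]
    unfold aff
    have : (Fin.succ 0 : Fin (m + 2)) = 1 := rfl
    rw [this, div_mul_eq_mul_div, eq_div_iff h0]
    exact h1
  · have : c = 1 := by omega
    subst this
    simp

theorem aff_mem (hP : P.IsPrime) {y : Fin (n + 1) → K}
    (hy : y ∈ (variety e P hP).Pts K) (h0 : y (e.symm (1, 0)) ≠ 0)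
    {q : MvPolynomial (Fin (m + 1)) K} (hq : q ∈ P) : aeval (aff e y) q = 0 := by
  classical
  set D := q.totalDegree with hD
  let Q : MvPolynomial (Fin (n + 1)) K := ∑ d ∈ Finset.range (D + 1),
    rename (fun i : Fin (m + 1) => e.symm (1, i.succ)) (homogeneousComponent d q) *
      (Y e 1 0) ^ (D - d)
  have hQ : Q.IsHomogeneous D := by
    refine IsHomogeneous.sum _ _ _ ?_
    intro d hd
    have hd' : d ≤ D := by simpa [Nat.lt_succ_iff] using hd
    have := (homogeneousComponent_isHomogeneous d q).rename_isHomogeneous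
      (f := fun i : Fin (m + 1) => e.symm ((1 : Fin 2), i.succ))
    have h2 := this.mul ((Y_homog (K := K) e 1 0).pow (D - d))
    have h3 : d + 1 * (D - d) = D := by omega
    rw [h3] at h2
    exact h2
  have hth : aeval (th e : Fin (n + 1) → MvPolynomial (Fin (m + 1)) K) Q = q := by
    have : ∀ d, aeval (th e : Fin (n + 1) → MvPolynomial (Fin (m + 1)) K)
        (rename (fun i : Fin (m + 1) => e.symm (1, i.succ)) (homogeneousComponent d q) *
      (Y e 1 0) ^ (D - d)) = homogeneousComponent d q := by
      intro d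
      rw [map_mul, map_pow, th_Y, aeval_rename]
      have h1 : (th e : Fin (n + 1) → MvPolynomial (Fin (m + 1)) K) ∘
          (fun i : Fin (m + 1) => e.symm (1, i.succ)) = X := by
        funext i
        simp [th]
      rw [h1, aeval_X_left_apply]
      simp
    simp only [Q]
    rw [map_sum]
    simp only [this]
    rw [hD]
    exact sum_homogeneousComponent q
  have hQm : Q ∈ (variety e P hP).ideal := by
    rw [mem_variety e P hP hQ, hth]
    exact hq
  have hev := hy.2 Q hQm
  have hcalc : aeval y Q = y (e.symm (1, 0)) ^ D * aeval (aff e y) q := by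
    simp only [Q]
    conv_rhs => rw [← sum_homogeneousComponent q]
    rw [map_sum, map_sum, Finset.mul_sum]
    refine Finset.sum_congr rfl fun d hd => ?_
    have hd' : d ≤ D := by simpa [Nat.lt_succ_iff] using hd
    rw [map_mul, map_pow, aeval_rename]
    have h1 : (y ∘ fun i : Fin (m + 1) => e.symm (1, i.succ)) =
        fun i => aff e y i * y (e.symm (1, 0)) := by
      funext i
      simp [aff, h0]
    rw [h1, aeval_mul_of_homog (homogeneousComponent_isHomogeneous d q)]
    have h2 : aeval y (Y e 1 0 : MvPolynomial (Fin (n + 1)) K) = y (e.symm (1, 0)) := by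
      simp [Y]
    rw [h2, mul_assoc, ← pow_add]
    have h3 : d + (D - d) = D := by omega
    rw [h3, mul_comm]
  rw [hcalc] at hev
  rcases mul_eq_zero.mp hev with h | h
  · exact absurd h (pow_ne_zero _ h0)
  · exact h

/-- the rational map given by the first affine coordinate -/
noncomputable def rmap (hP : P.IsPrime) : RatMapP1 (variety e P hP) where
  F₀ := Y e 0 0
  F₁ := Y e 1 0
  deg := 1
  hom₀ := Y_homog e 0 0
  hom₁ := Y_homog e 1 0
  notMem := Or.inr (Y10_notMem e P hP)

theorem aeval_vec2 {R S : Type} [CommRing R] [CommRing S] [Algebra K R] [Algebra K S]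
    (g : R →ₐ[K] S) (a b : R) (H : MvPolynomial (Fin 2) K) :
    g (aeval ![a, b] H) = aeval ![g a, g b] H := by
  rw [← AlgHom.comp_apply, comp_aeval]
  congr 2
  funext i
  fin_cases i <;> rfl

theorem dominant {A : Set (Fin (m + 1) → K)} (hP : (vanishingIdeal K A).IsPrime)
    (hA : ((fun x => x 0) '' A).Infinite) : (rmap e (vanishingIdeal K A) hP).Dominant := by
  intro H d hH hne hmem
  have hhom : (aeval ![(rmap e (vanishingIdeal K A) hP).F₀, (rmap e (vanishingIdeal K A) hP).F₁]
      H).IsHomogeneous (1 * d) := by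
    apply IsHomogeneous.aeval hH
    intro i
    fin_cases i
    · exact Y_homog e 0 0
    · exact Y_homog e 1 0
  rw [mem_variety e _ hP hhom, aeval_vec2] at hmem
  have e0 : aeval (th e : Fin (n + 1) → MvPolynomial (Fin (m + 1)) K)
      (rmap e (vanishingIdeal K A) hP).F₀ = X 0 := by
    change aeval _ (Y e 0 0) = _
    rw [th_Y]; simp
  have e1 : aeval (th e : Fin (n + 1) → MvPolynomial (Fin (m + 1)) K)
      (rmap e (vanishingIdeal K A) hP).F₁ = 1 := by
    change aeval _ (Y e 1 0) = _
    rw [th_Y]; simp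
  rw [e0, e1] at hmem
  set h : Polynomial K := aeval ![Polynomial.X, 1] H with hh
  have hroot : ∀ z ∈ ((fun x : Fin (m + 1) → K => x 0) '' A), h.eval z = 0 := by
    rintro z ⟨x, hx, rfl⟩
    have h1 := hmem x hx
    rw [aeval_vec2] at h1
    have h2 : h.eval (x 0) = aeval ![x 0, 1] H := by
      have := aeval_vec2 (Polynomial.aeval (x 0)) (Polynomial.X : Polynomial K) 1 H
      rw [Polynomial.aeval_X, map_one] at this
      rw [← this, hh, Polynomial.coe_aeval_eq_eval]
    simpa [h2] using h1
  have hz : h = 0 := by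
    classical
    by_contra hcon
    apply hA
    refine Set.Finite.subset (h.roots.toFinset.finite_toSet) ?_
    intro z hz
    simp only [Finset.mem_coe, Multiset.mem_toFinset]
    exact (Polynomial.mem_roots hcon).mpr (hroot z hz)
  apply hne
  have := Polynomial.homogenize_eq_of_isHomogeneous hH hh.symm
  rw [hz] at this
  rw [← this]
  simp

theorem posDim {A : Set (Fin (m + 1) → K)} (hP : (vanishingIdeal K A).IsPrime)
    (hA : ((fun x => x 0) '' A).Infinite) : (variety e (vanishingIdeal K A) hP).PosDim := by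
  refine ⟨(fun x s => algebraMap K (AlgebraicClosure K) (phi e x s)) '' A, ?_, ?_, ?_⟩
  · intro hfin
    apply hA
    have h1 : ((fun y : Fin (n + 1) → AlgebraicClosure K => y (e.symm (0, 0))) ''
        ((fun x s => algebraMap K (AlgebraicClosure K) (phi e x s)) '' A)).Finite :=
      hfin.image _
    rw [Set.image_image] at h1
    have h2 : (fun x : Fin (m + 1) → K =>
        algebraMap K (AlgebraicClosure K) (phi e x (e.symm (0, 0)))) '' A =
        (algebraMap K (AlgebraicClosure K)) '' ((fun x => x 0) '' A) := by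
      rw [Set.image_image]
      apply Set.image_congr
      intro x _
      simp [phi]
    rw [h2] at h1
    exact h1.of_finite_image (algebraMap K (AlgebraicClosure K)).injective.injOn
  · rintro _ ⟨x, hx, rfl⟩
    have hm := phi_mem e hP hx
    refine ⟨?_, ?_⟩
    · intro h
      have := congrFun h (e.symm (1, 0))
      simp [phi] at this
    · intro F hF
      have h1 := hm.2 F hF
      have h2 := aeval_algebraMap_apply (AlgebraicClosure K) (phi e x) F
      rw [h1, map_zero] at h2
      exact h2
  · rintro _ ⟨x, hx, rfl⟩ _ ⟨y, hy, rfl⟩ hne c hc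
    apply hne
    have := congrFun hc (e.symm (1, 0))
    simp only [Pi.smul_apply, phi, smul_eq_mul, Equiv.apply_symm_apply, one_ne_zero, if_false,
      Fin.cons_zero, mul_one, map_one] at this
    rw [← this, one_smul] at hc
    exact hc

end Var

end Pool.Agent.H367R2.RP
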