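import Pool.Agent.H367R2.RP.Trans2

open MvPolynomial

namespace Pool.Agent.H367R2.RP

section Main

variable {K : Type} [Field K] {m n : ℕ} (e : Fin (n + 1) ≃ Fin 2 × Fin (m + 2))

/-- the forms used to test approach -/
noncomputable def tst (H : MvPolynomial (Fin 2) K) (j : Fin (m + 2)) :
    MvPolynomial (Fin (n + 1)) K := aeval ![Y e 0 j, Y e 1 j] H

theorem tst_homog {H : MvPolynomial (Fin 2) K} {d : ℕ} (hH : H.IsHomogeneous d)
    (j : Fin (m + 2)) : (tst e H j).IsHomogeneous d := by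
  have : (tst e H j).IsHomogeneous (1 * d) := by
    apply IsHomogeneous.aeval hH
    intro i
    fin_cases i
    · exact Y_homog e 0 j
    · exact Y_homog e 1 j
  simpa using this

theorem aeval_tst {L : Type} [Field L] [Algebra K L] (H : MvPolynomial (Fin 2) K)
    (j : Fin (m + 2)) (x : Fin (n + 1) → L) :
    aeval x (tst e H j) = aeval ![x (e.symm (0, j)), x (e.symm (1, j))] H := by
  unfold tst
  rw [aeval_vec2]
  simp [Y]

theorem scale2 {L : Type} [Field L] [Algebra K L] {H : MvPolynomial (Fin 2) K} {d : ℕ}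
    (hH : H.IsHomogeneous d) (a b c : L) :
    aeval ![a * c, b * c] H = aeval ![a, b] H * c ^ d := by
  rw [← aeval_mul_of_homog hH]
  congr 2
  funext i
  fin_cases i <;> rfl

theorem tst_mem (P : Ideal (MvPolynomial (Fin (m + 1)) K)) (hP : P.IsPrime) (D : EffDivP1 K)
    (j : Fin (m + 2)) : tst e D.H j ∈ (rmap e P hP).PullIdeal D := by
  refine ⟨⟨D.deg, tst_homog e D.hom j⟩, ?_⟩
  rintro x w ⟨hx, hw, A₀, A₁, d, h0, h1, hrel, rfl⟩ hH
  have hrel' : A₀ * Y e 1 0 - A₁ * Y e 0 0 ∈ (variety e P hP).ideal := hrel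
  have hdet : A₀ * Y e 1 j - A₁ * Y e 0 j ∈ (variety e P hP).ideal := by
    have hpr := (variety e P hP).isPrime
    have hY : (Y e 0 0 * Y e 1 j - Y e 1 0 * Y e 0 j : MvPolynomial (Fin (n + 1)) K) ∈
        (variety e P hP).ideal := by
      have hh : (Y e 0 0 * Y e 1 j - Y e 1 0 * Y e 0 j :
          MvPolynomial (Fin (n + 1)) K).IsHomogeneous (1 + 1) :=
        ((Y_homog e _ _).mul (Y_homog e _ _)).sub ((Y_homog e _ _).mul (Y_homog e _ _))
      rw [mem_variety e P hP hh, map_sub, map_mul, map_mul, th_Y, th_Y, th_Y, th_Y]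
      simp
    have hprod : Y e 1 0 * (A₀ * Y e 1 j - A₁ * Y e 0 j) ∈ (variety e P hP).ideal := by
      have : Y e 1 0 * (A₀ * Y e 1 j - A₁ * Y e 0 j) =
          (A₀ * Y e 1 0 - A₁ * Y e 0 0) * Y e 1 j +
            A₁ * (Y e 0 0 * Y e 1 j - Y e 1 0 * Y e 0 j) := by ring
      rw [this]
      exact Ideal.add_mem _ (Ideal.mul_mem_right _ _ hrel') (Ideal.mul_mem_left _ _ hY)
    rcases hpr.mem_or_mem hprod with h | h
    · exact absurd h (Y10_notMem e P hP)
    · exact h
  have hd := hx.2 _ hdet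
  rw [map_sub, map_mul, map_mul, sub_eq_zero] at hd
  have hYx : ∀ c, aeval x (Y e c j : MvPolynomial (Fin (n + 1)) K) = x (e.symm (c, j)) := by
    intro c; simp [Y]
  rw [hYx, hYx] at hd
  rw [aeval_tst]
  set w0 := aeval x A₀
  set w1 := aeval x A₁
  by_cases hw1 : w1 = 0
  · have hw0 : w0 ≠ 0 := by
      intro h
      apply hw
      funext i
      fin_cases i
      · exact h
      · exact hw1
    have hx1 : x (e.symm (1, j)) = 0 := by
      rw [hw1, zero_mul] at hd
      exact (mul_eq_zero.mp hd).resolve_left hw0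
    have e1 : (![x (e.symm (0, j)), x (e.symm (1, j))] : Fin 2 → _) =
        ![w0 * (x (e.symm (0, j)) / w0), w1 * (x (e.symm (0, j)) / w0)] := by
      rw [hx1, hw1, zero_mul, mul_div_cancel₀ _ hw0]
    rw [e1, scale2 D.hom, hH, zero_mul]
  · have e1 : (![x (e.symm (0, j)), x (e.symm (1, j))] : Fin 2 → _) =
        ![w0 * (x (e.symm (1, j)) / w1), w1 * (x (e.symm (1, j)) / w1)] := by
      rw [mul_div_cancel₀ _ hw1]
      congr 1
      rw [← mul_div_assoc, hd]
      field_simp
    rw [e1, scale2 D.hom, hH, zero_mul]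

theorem notMem_pull (P : Ideal (MvPolynomial (Fin (m + 1)) K)) (hP : P.IsPrime) (D : EffDivP1 K)
    {y : Fin (n + 1) → K} (hy : y ∈ (variety e P hP).Pts K) (h0 : y (e.symm (1, 0)) ≠ 0)
    (hH : aeval ![aff e y 0, 1] D.H = 0) : y ∈ (rmap e P hP).PullPts D K := by
  refine ⟨hy, ?_⟩
  intro F hF
  set y' : Fin (n + 1) → AlgebraicClosure K := fun s => algebraMap K _ (y s) with hy'
  have hev : ∀ G : MvPolynomial (Fin (n + 1)) K,
      aeval y' G = algebraMap K (AlgebraicClosure K) (aeval y G) := by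
    intro G
    exact aeval_algebraMap_apply (AlgebraicClosure K) y G
  have hval : (rmap e P hP).Value (AlgebraicClosure K) y'
      ![aeval y' (rmap e P hP).F₀, aeval y' (rmap e P hP).F₁] := by
    refine ⟨⟨?_, ?_⟩, ?_, (rmap e P hP).F₀, (rmap e P hP).F₁, 1, (rmap e P hP).hom₀,
      (rmap e P hP).hom₁, ?_, rfl⟩
    · intro h
      have := congrFun h (e.symm (1, 0))
      simp only [hy', Pi.zero_apply, map_eq_zero] at this
      exact h0 this
    · intro G hG
      rw [hev, hy.2 G hG, map_zero]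
    · intro h
      have := congrFun h 1
      simp only [Matrix.cons_val_one, Matrix.cons_val_fin_one, Pi.zero_apply] at this
      rw [hev] at this
      have h2 : aeval y (rmap e P hP).F₁ = y (e.symm (1, 0)) := by
        change aeval y (Y e 1 0) = _
        simp [Y]
      rw [h2, map_eq_zero] at this
      exact h0 this
    · rw [mul_comm, sub_self]
      exact Ideal.zero_mem _
  have hw : aeval ![aeval y' (rmap e P hP).F₀, aeval y' (rmap e P hP).F₁] D.H = 0 := by
    rw [hev, hev]
    have h1 : aeval y (rmap e P hP).F₁ = 1 * y (e.symm (1, 0)) := by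
      change aeval y (Y e 1 0) = _
      simp [Y]
    have h2 : aeval y (rmap e P hP).F₀ = aff e y 0 * y (e.symm (1, 0)) := by
      change aeval y (Y e 0 0) = _
      have := pts_eq e P hP hy h0 0 0
      simpa [Y] using this
    have h3 := aeval_vec2 (Algebra.ofId K (AlgebraicClosure K))
      (aeval y (rmap e P hP).F₀) (aeval y (rmap e P hP).F₁) D.H
    have h4 : ∀ a : K, (Algebra.ofId K (AlgebraicClosure K)) a =
      algebraMap K (AlgebraicClosure K) a := fun a => rfl
    rw [h4, h4, h4] at h3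
    rw [← h3, h1, h2, scale2 D.hom, hH, zero_mul, map_zero]
  have hfin := hF.2 _ _ hval hw
  rw [hev, map_eq_zero] at hfin
  exact hfin

include e in
/-- The transfer theorem: an infinite set of values on the rational points of an affine algebraic
set which stays away from the algebraic elements gives a counterexample. -/
theorem transfer {Γ : Type} [LinearOrderedCommGroupWithZero Γ] (v : Valuation K Γ)
    (E : Set (MvPolynomial (Fin (m + 1)) K))
    (hinf : ((fun x => x 0) '' {x : Fin (m + 1) → K | ∀ q ∈ E, aeval x q = 0}).Infinite)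
    (hint : ∀ x : Fin (m + 1) → K, (∀ q ∈ E, aeval x q = 0) → v (x 0) ≤ 1)
    (hT : ∀ h : Polynomial K, h ≠ 0 → ∃ ε : Γ, ε ≠ 0 ∧ ∀ x : Fin (m + 1) → K,
      (∀ q ∈ E, aeval x q = 0) → h.eval (x 0) ≠ 0 → ε ≤ v (h.eval (x 0))) :
    ∃ (V : ProjVariety K n) (f : RatMapP1 V) (Φ : MvPolynomial (Fin (n + 1)) K),
      IsCounterexample v V f Φ := by
  obtain ⟨A, hAS, hA, hP⟩ := exists_prime _ hinf
  refine ⟨variety e _ hP, rmap e _ hP, Y e 1 0, dense e hP, posDim e hP hA, dominant e hP hA,
    ⟨1, Y_homog e 1 0⟩, Y10_notMem e _ hP, ?_⟩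
  rintro D ⟨Q, hQ, happ⟩
  have hE : ∀ q ∈ E, q ∈ vanishingIdeal K A := by
    intro q hq x hx
    exact hAS hx q hq
  set h : Polynomial K := aeval ![Polynomial.X, 1] D.H with hh
  have hne : h ≠ 0 := by
    intro hz
    apply D.ne_zero
    have := Polynomial.homogenize_eq_of_isHomogeneous D.hom hh.symm
    rw [hz] at this
    rw [← this]
    simp
  have heval : ∀ z : K, h.eval z = aeval ![z, 1] D.H := by
    intro z
    have := aeval_vec2 (Polynomial.aeval z) (Polynomial.X : Polynomial K) 1 D.H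
    rw [Polynomial.aeval_X, map_one] at this
    rw [← this, hh, Polynomial.coe_aeval_eq_eval]
  obtain ⟨ε, hε, hlow⟩ := hT h hne
  have hstep : ∀ j : Fin (m + 2), ∃ i₀ : ℕ, ∀ i ≥ i₀,
      v (aeval (Q i) (tst e D.H j)) < ε * (vnorm v (Q i)) ^ D.deg := by
    intro j
    exact happ _ (tst_mem e _ hP D j) D.deg (tst_homog e D.hom j) ε hε
  choose i₀ hi₀ using hstep
  set i := Finset.univ.sup i₀ with hi
  have hi' : ∀ j, i₀ j ≤ i := fun j => Finset.le_sup (f := i₀) (Finset.mem_univ j)
  obtain ⟨hy, hy0', hyp⟩ := hQ i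
  set y := Q i with hyd
  have hy0 : y (e.symm (1, 0)) ≠ 0 := by
    intro h'
    apply hy0'
    simp [Y, h']
  have hxE : ∀ q ∈ E, aeval (aff e y) q = 0 := fun q hq =>
    aff_mem e _ hP hy hy0 (hE q hq)
  have hz : h.eval (aff e y 0) ≠ 0 := by
    intro hz
    apply hyp
    apply notMem_pull e _ hP D hy hy0
    rw [← heval]
    exact hz
  have hb := hlow _ hxE hz
  have hz1 := hint _ hxE
  -- the maximum
  obtain ⟨s, _, hs⟩ := Finset.exists_mem_eq_sup' (Finset.univ_nonempty)
    (fun s : Fin (n + 1) => v (y s))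
  have hs' : vnorm v y = v (y s) := hs
  set j := (e s).2 with hj
  have hsj : v (y s) ≤ v (y (e.symm (1, j))) := by
    have h1 : y s = y (e.symm ((e s).1, j)) := by
      rw [hj]; simp
    rw [h1, pts_eq e _ hP hy hy0 (e s).1 j, map_mul]
    have h2 : v (if (e s).1 = 0 then aff e y 0 else 1) ≤ 1 := by
      split_ifs
      · exact hz1
      · simp
    calc v (if (e s).1 = 0 then aff e y 0 else 1) * v (y (e.symm (1, j)))
        ≤ 1 * v (y (e.symm (1, j))) := by gcongr
      _ = v (y (e.symm (1, j))) := one_mul _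
  have hcomp : aeval y (tst e D.H j) = h.eval (aff e y 0) * y (e.symm (1, j)) ^ D.deg := by
    rw [aeval_tst, heval, ← scale2 D.hom]
    congr 2
    rw [pts_eq e _ hP hy hy0 0 j]
    simp
  have h1 := hi₀ j i (hi' j)
  rw [hcomp, map_mul, map_pow, hs'] at h1
  have h2 : ε * v (y s) ^ D.deg ≤ v (h.eval (aff e y 0)) * v (y (e.symm (1, j))) ^ D.deg := by
    gcongr
  exact absurd h1 (not_lt.mpr h2)

end Main

end Pool.Agent.H367R2.RP
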