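import Pool.Agent.H367R2.RP.Struct

open Polynomial

namespace Pool.Agent.H367R2.RP

variable {p : ℕ} [hp : Fact p.Prime]

/-- Every nonzero polynomial divides a nonzero additive polynomial (Ore). -/
theorem ore {h : (KK p)[X]} (hne : h ≠ 0) :
    ∃ (s : Finset ℕ) (B : ℕ → (ZMod p)[X]) (h₁ q₁ : (ZMod p)[X][X]) (b : (ZMod p)[X]),
      (∃ k ∈ s, B k ≠ 0) ∧ b ≠ 0 ∧ h₁.map (io p) = C (io p b) * h ∧
        ∑ k ∈ s, C (B k) * X ^ p ^ k = h₁ * q₁ := by
  classical
  have hfin : Module.Finite (KK p) (AdjoinRoot h) := (AdjoinRoot.powerBasis hne).finite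
  have hnl : ¬ LinearIndependent (KK p) (fun k : ℕ => (AdjoinRoot.root h) ^ p ^ k) :=
    Module.Finite.not_linearIndependent_of_infinite _
  rw [not_linearIndependent_iff] at hnl
  obtain ⟨s, g, hsum, k₀, hk₀, hgk⟩ := hnl
  have hmk : AdjoinRoot.mk h (∑ k ∈ s, C (g k) * X ^ p ^ k) = 0 := by
    rw [map_sum, ← hsum]
    refine Finset.sum_congr rfl fun k _ => ?_
    rw [map_mul, map_pow, AdjoinRoot.mk_X, AdjoinRoot.mk_C, Algebra.smul_def]
    rfl
  obtain ⟨q', hq'⟩ := AdjoinRoot.mk_eq_zero.mp hmk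
  obtain ⟨b₁, hb₁⟩ := IsLocalization.integerNormalization_map_to_map
    (nonZeroDivisors (ZMod p)[X]) h
  obtain ⟨b₂, hb₂⟩ := IsLocalization.integerNormalization_map_to_map
    (nonZeroDivisors (ZMod p)[X]) q'
  obtain ⟨b₃, hb₃⟩ := IsLocalization.exist_integer_multiples (nonZeroDivisors (ZMod p)[X]) s g
  choose! B₃ hB₃ using hb₃
  set h₁ := IsLocalization.integerNormalization (nonZeroDivisors (ZMod p)[X]) h
  set q₂ := IsLocalization.integerNormalization (nonZeroDivisors (ZMod p)[X]) q'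
  have hs1 : ∀ (b : (ZMod p)[X]) (f : (KK p)[X]), b • f = C (io p b) * f := by
    intro b f
    rw [Algebra.smul_def]
    rfl
  have hs2 : ∀ (b : (ZMod p)[X]) (f : KK p), b • f = io p b * f := by
    intro b f
    rw [Algebra.smul_def]
  have hb₁' : h₁.map (io p) = C (io p b₁) * h := by rw [← hs1]; exact hb₁
  have hb₂' : q₂.map (io p) = C (io p b₂) * q' := by rw [← hs1]; exact hb₂
  have hB₃' : ∀ k ∈ s, io p (B₃ k) = io p b₃ * g k := by
    intro k hk
    rw [← hs2]; exact hB₃ k hk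
  refine ⟨s, fun k => b₁ * b₂ * B₃ k, h₁, C (b₃ : (ZMod p)[X]) * q₂, b₁, ⟨k₀, hk₀, ?_⟩,
    nonZeroDivisors.ne_zero b₁.2, hb₁', ?_⟩
  · have h3 : io p b₃ * g k₀ ≠ 0 := by
      apply mul_ne_zero _ hgk
      rw [Ne, map_eq_zero_iff _ io_inj]
      exact nonZeroDivisors.ne_zero b₃.2
    have h4 : B₃ k₀ ≠ 0 := by
      intro h0
      apply h3
      rw [← hB₃' k₀ hk₀, h0, map_zero]
    exact mul_ne_zero (mul_ne_zero (nonZeroDivisors.ne_zero b₁.2) (nonZeroDivisors.ne_zero b₂.2)) h4
  · apply Polynomial.map_injective (io p) io_inj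
    rw [Polynomial.map_mul, Polynomial.map_mul, map_C, hb₁', hb₂', Polynomial.map_sum]
    have e1 : C (io p b₁) * h * (C (io p b₃) * (C (io p b₂) * q')) =
        C (io p b₁ * io p b₂ * io p b₃) * (h * q') := by
      rw [C_mul, C_mul]; ring
    rw [e1, ← hq', Finset.mul_sum]
    refine Finset.sum_congr rfl fun k hk => ?_
    have e2 : io p (b₁ * b₂ * B₃ k) = io p b₁ * io p b₂ * (io p b₃ * g k) := by
      rw [map_mul, map_mul, hB₃' k hk]
    have e3 : io p b₁ * io p b₂ * (io p b₃ * g k) = (io p b₁ * io p b₂ * io p b₃) * g k := by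
      ring
    rw [Polynomial.map_mul, Polynomial.map_pow, map_X, map_C, e2, e3, C_mul, mul_assoc]

/-- The coefficients of the square root of `1 + X`. -/
noncomputable def alph (p : ℕ) [Fact p.Prime] : ℕ → ZMod p
  | 0 => 1
  | v + 1 => bet p v

theorem A_sq (h5 : 5 ≤ p) : (PowerSeries.mk (alph p)) * (PowerSeries.mk (alph p)) =
    1 + PowerSeries.X := by
  have h2 := two_ne_zero_zmod h5
  ext n
  rw [PowerSeries.coeff_mul, map_add, PowerSeries.coeff_one, PowerSeries.coeff_X,
    Finset.Nat.sum_antidiagonal_eq_sum_range_succ_mk]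
  simp only [PowerSeries.coeff_mk]
  rcases n with _ | n
  · simp [alph]
  rcases n with _ | n
  · simp only [zero_add, Finset.sum_range_succ, Finset.range_zero, Finset.sum_empty]
    simp only [alph, bet_zero, Nat.sub_self, Nat.sub_zero]
    rw [if_neg (by norm_num)]
    simp only [if_true]
    field_simp
    norm_num
  · rw [if_neg (by omega), if_neg (by omega), Finset.sum_range_succ, Finset.sum_range_succ']
    have h1 := bet_rec (p := p) h5 n
    have h3 : ∑ k ∈ Finset.range (n + 1), alph p (k + 1) * alph p (n + 1 + 1 - (k + 1)) =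
        ∑ k ∈ Finset.range (n + 1), bet p k * bet p (n - k) := by
      refine Finset.sum_congr rfl fun k hk => ?_
      rw [Finset.mem_range] at hk
      have : n + 1 + 1 - (k + 1) = (n - k) + 1 := by omega
      rw [this]
      rfl
    rw [h3]
    simp only [Nat.sub_self, Nat.sub_zero, alph]
    linear_combination h1

theorem irr (h5 : 5 ≤ p) (s : Finset ℕ) (b : ℕ → ZMod p) (hb : ∃ k ∈ s, b k ≠ 0) (j₀ : ℕ) :
    ∃ j ≥ j₀, (∑ k ∈ s, if k ≤ j then b k * alph p (j - k) else 0) ≠ 0 := by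
  classical
  by_contra hcon
  push Not at hcon
  set β : (ZMod p)[X] := ∑ k ∈ s, C (b k) * X ^ k with hβ
  obtain ⟨k₀, hk₀, hbk⟩ := hb
  have hβ0 : β ≠ 0 := by
    intro h
    have h1 := congrArg (fun q => Polynomial.coeff q k₀) h
    simp only [hβ, finsetSum_coeff, coeff_C_mul_X_pow, coeff_zero] at h1
    rw [Finset.sum_ite_eq s k₀, if_pos hk₀] at h1
    exact hbk h1
  set A : PowerSeries (ZMod p) := PowerSeries.mk (alph p) with hA
  have hcoef : ∀ j, PowerSeries.coeff j ((β : PowerSeries (ZMod p)) * A) =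
      ∑ k ∈ s, if k ≤ j then b k * alph p (j - k) else 0 := by
    intro j
    have e1 : (β : PowerSeries (ZMod p)) = ∑ k ∈ s, PowerSeries.C (b k) * PowerSeries.X ^ k := by
      rw [hβ]
      have := map_sum (Polynomial.coeToPowerSeries.ringHom (R := ZMod p))
        (fun k => C (b k) * X ^ k) s
      simp only [Polynomial.coeToPowerSeries.ringHom_apply] at this
      rw [this]
      refine Finset.sum_congr rfl fun k _ => ?_
      rw [Polynomial.coe_mul, Polynomial.coe_pow, Polynomial.coe_C, Polynomial.coe_X]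
    rw [e1, Finset.sum_mul, map_sum]
    refine Finset.sum_congr rfl fun k _ => ?_
    rw [mul_assoc, PowerSeries.coeff_C_mul, PowerSeries.coeff_X_pow_mul', hA]
    split_ifs
    · rw [PowerSeries.coeff_mk]
    · rw [mul_zero]
  set P : (ZMod p)[X] := PowerSeries.trunc j₀ ((β : PowerSeries (ZMod p)) * A) with hP
  have hPeq : (P : PowerSeries (ZMod p)) = (β : PowerSeries (ZMod p)) * A := by
    ext j
    rw [Polynomial.coeff_coe, hP, PowerSeries.coeff_trunc]
    split_ifs with hj
    · rfl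
    · rw [hcoef, hcon j (by omega)]
  have hsq : P * P = β * β * (1 + X) := by
    apply Polynomial.coe_injective
    rw [Polynomial.coe_mul, Polynomial.coe_mul, Polynomial.coe_mul, Polynomial.coe_add,
      Polynomial.coe_one, Polynomial.coe_X, hPeq, ← A_sq h5]
    ring
  have hX : (1 + X : (ZMod p)[X]) ≠ 0 := by
    rw [add_comm]
    exact (monic_X_add_C (1 : ZMod p)).ne_zero
  have hne : P * P ≠ 0 := by
    rw [hsq]
    exact mul_ne_zero (mul_ne_zero hβ0 hβ0) hX
  have hP0 : P ≠ 0 := left_ne_zero_of_mul hne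
  have hdeg := congrArg Polynomial.natDegree hsq
  rw [natDegree_mul hP0 hP0, natDegree_mul (mul_ne_zero hβ0 hβ0) hX, natDegree_mul hβ0 hβ0] at hdeg
  have h1X : (1 + X : (ZMod p)[X]).natDegree = 1 := by
    rw [add_comm]
    exact natDegree_X_add_C (1 : ZMod p)
  rw [h1X] at hdeg
  omega

/-- the truncations -/
noncomputable def Zt (p : ℕ) [Fact p.Prime] (N : ℕ) : (ZMod p)[X] :=
  ∑ i ∈ Finset.range (N + 1), C (alph p i) * X ^ p ^ i

theorem Zt_eq (N : ℕ) : X + ∑ v ∈ Finset.range N, C (bet p v) * X ^ p ^ (v + 1) = Zt p N := by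
  unfold Zt
  rw [Finset.sum_range_succ', add_comm]
  congr 1
  simp [alph]

theorem Zt_pow (c : ZMod p) (N k : ℕ) : (C c + Zt p N) ^ p ^ k =
    C c + ∑ i ∈ Finset.range (N + 1), C (alph p i) * X ^ p ^ (i + k) := by
  have hc : ∀ c : ZMod p, c ^ p ^ k = c := by
    intro c
    induction k with
    | zero => simp
    | succ k ih => rw [pow_succ, pow_mul, ih, zmod_pow]
  rw [add_pow_char_pow, ← C_pow, hc, Zt, sum_pow_char_pow]
  congr 1
  refine Finset.sum_congr rfl fun i _ => ?_
  rw [mul_pow, ← C_pow, hc, ← pow_mul, ← pow_add]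

theorem coeff_extract (s : Finset ℕ) (B : ℕ → (ZMod p)[X]) (δ : ℕ)
    (hδ : ∀ k ∈ s, (B k).natDegree ≤ δ) {l j : ℕ} (hl : l ≤ δ) (hj : 1 ≤ j)
    (hjδ : δ + p ^ (j - 1) < p ^ j) {N : ℕ} (hN : j ≤ N) (c : ZMod p) :
    (∑ k ∈ s, B k * (C c + Zt p N) ^ p ^ k).coeff (p ^ j + l) =
      ∑ k ∈ s, if k ≤ j then (B k).coeff l * alph p (j - k) else 0 := by
  classical
  rw [finsetSum_coeff]
  refine Finset.sum_congr rfl fun k hk => ?_
  have hBz : ∀ m, δ < m → (B k).coeff m = 0 := fun m hm =>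
    coeff_eq_zero_of_natDegree_lt (lt_of_le_of_lt (hδ k hk) hm)
  have h2 := hp.out.two_le
  rw [Zt_pow, mul_add, coeff_add, coeff_mul_C, hBz (p ^ j + l) (by omega), zero_mul, zero_add,
    Finset.mul_sum, finsetSum_coeff]
  have hterm : ∀ i, (B k * (C (alph p i) * X ^ p ^ (i + k))).coeff (p ^ j + l) =
      if i + k = j then (B k).coeff l * alph p i else 0 := by
    intro i
    have e1 : B k * (C (alph p i) * X ^ p ^ (i + k)) = C (alph p i) * (B k * X ^ p ^ (i + k)) := by
      ring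
    rw [e1, coeff_C_mul, coeff_mul_X_pow']
    rcases lt_trichotomy (i + k) j with h | h | h
    · rw [if_neg h.ne]
      have h3 : p ^ (i + k) ≤ p ^ (j - 1) := Nat.pow_le_pow_right hp.out.pos (by omega)
      rw [if_pos (by omega), hBz _ (by omega), mul_zero]
    · subst h
      rw [if_pos rfl, if_pos (by omega), mul_comm]
      congr 2
      omega
    · rw [if_neg h.ne']
      have h3 : p ^ (j + 1) ≤ p ^ (i + k) := Nat.pow_le_pow_right hp.out.pos (by omega)
      rw [pow_succ] at h3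
      have h4 : p ^ j * 2 ≤ p ^ j * p := Nat.mul_le_mul_left _ h2
      rw [if_neg (by omega), mul_zero]
  simp only [hterm]
  split_ifs with hkj
  · rw [Finset.sum_eq_single (j - k)]
    · rw [if_pos (by omega)]
    · intro i _ hi
      rw [if_neg (by omega)]
    · intro h
      rw [Finset.mem_range] at h
      omega
  · refine Finset.sum_eq_zero fun i _ => ?_
    rw [if_neg (by omega)]

/-- the `t`-adic valuation -/
noncomputable abbrev vt (p : ℕ) [Fact p.Prime] :=
  (Polynomial.idealX (ZMod p)).valuation (KK p)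

theorem lt_vt {P : (ZMod p)[X]} {M : ℕ} (h : ¬ X ^ M ∣ P) :
    WithZero.exp (-(M : ℤ)) < vt p (io p P) := by
  by_contra hcon
  push Not at hcon
  apply h
  rw [IsDedekindDomain.HeightOneSpectrum.valuation_of_algebraMap,
    IsDedekindDomain.HeightOneSpectrum.intValuation_le_pow_iff_mem, Polynomial.idealX_span,
    Ideal.span_singleton_pow, Ideal.mem_span_singleton] at hcon
  exact hcon

/-- The explicit solutions stay away from the algebraic elements. -/
theorem lower_bound (h5 : 5 ≤ p) {h : (KK p)[X]} (hne : h ≠ 0) :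
    ∃ M : ℕ, ∀ (N : ℕ) (Z : (ZMod p)[X]), Z.natDegree ≤ p ^ N →
      (2 ≤ N → ∃ c : ZMod p,
        Z = C c + (X + ∑ v ∈ Finset.range N, C (bet p v) * X ^ p ^ (v + 1))) →
      h.eval (io p Z) ≠ 0 → WithZero.exp (-(M : ℤ)) ≤ vt p (h.eval (io p Z)) := by
  classical
  obtain ⟨s, B, h₁, q₁, b, ⟨k₀, hk₀, hBk⟩, hb, hh₁, hrel⟩ := ore hne
  set δ := s.sup fun k => (B k).natDegree with hδdef
  have hδ : ∀ k ∈ s, (B k).natDegree ≤ δ := fun k hk =>
    Finset.le_sup (f := fun k => (B k).natDegree) hk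
  set l := (B k₀).natDegree with hl
  have hlδ : l ≤ δ := hδ k₀ hk₀
  have hcl : (B k₀).coeff l ≠ 0 := by
    rw [hl]
    exact leadingCoeff_ne_zero.mpr hBk
  obtain ⟨j, hj, hej⟩ := irr h5 s (fun k => (B k).coeff l) ⟨k₀, hk₀, hcl⟩ (δ + 1)
  have hj1 : 1 ≤ j := by omega
  have h2 := hp.out.two_le
  have hjδ : δ + p ^ (j - 1) < p ^ j := by
    have e1 : p ^ j = p * p ^ (j - 1) := by
      rw [← pow_succ']
      congr 1
      omega
    have e2 : j - 1 < p ^ (j - 1) := Nat.lt_pow_self hp.out.one_lt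
    rw [e1]
    have e3 : 2 * p ^ (j - 1) ≤ p * p ^ (j - 1) := Nat.mul_le_mul_right _ h2
    omega
  -- large parameters
  have hlarge : ∀ (N : ℕ) (c : ZMod p), j ≤ N → ¬ X ^ (p ^ j + l + 1) ∣ h₁.eval (C c + Zt p N) := by
    intro N c hN hdvd
    have h3 : X ^ (p ^ j + l + 1) ∣ (h₁ * q₁).eval (C c + Zt p N) := by
      rw [eval_mul]
      exact Dvd.dvd.mul_right hdvd _
    rw [← hrel, eval_finsetSum] at h3
    simp only [eval_mul, eval_C, eval_pow, eval_X] at h3
    have h4 := (X_pow_dvd_iff.mp h3) (p ^ j + l) (by omega)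
    rw [coeff_extract s B δ hδ hlδ hj1 hjδ hN c] at h4
    exact hej h4
  -- small parameters
  set E := (∑ i ∈ Finset.range (h₁.natDegree + 1), (h₁.coeff i).natDegree) +
    h₁.natDegree * p ^ (j + 2) with hE
  have hsmall : ∀ (N : ℕ) (Z : (ZMod p)[X]), N ≤ j + 2 → Z.natDegree ≤ p ^ N →
      (h₁.eval Z).natDegree ≤ E := by
    intro N Z hN hZ
    rw [eval_eq_sum_range]
    apply natDegree_sum_le_of_forall_le
    intro i hi
    have hi' := hi
    rw [Finset.mem_range] at hi'
    refine (natDegree_mul_le).trans ?_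
    have f1 : (h₁.coeff i).natDegree ≤ ∑ i ∈ Finset.range (h₁.natDegree + 1),
        (h₁.coeff i).natDegree :=
      Finset.single_le_sum (f := fun i => (h₁.coeff i).natDegree) (fun _ _ => Nat.zero_le _) hi
    have f2 : (Z ^ i).natDegree ≤ h₁.natDegree * p ^ (j + 2) := by
      refine natDegree_pow_le.trans ?_
      apply Nat.mul_le_mul (by omega)
      exact hZ.trans (Nat.pow_le_pow_right hp.out.pos hN)
    omega
  refine ⟨max (p ^ j + l + 1) (E + 1), ?_⟩
  intro N Z hZ hform hev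
  set M := max (p ^ j + l + 1) (E + 1) with hM
  have hevrel : io p (h₁.eval Z) = io p b * h.eval (io p Z) := by
    have e1 : io p (h₁.eval Z) = (h₁.map (io p)).eval (io p Z) := by
      rw [eval_map, eval₂_at_apply]
    rw [e1, hh₁, eval_mul, eval_C]
  have hnd : ¬ X ^ M ∣ h₁.eval Z := by
    by_cases hN : j + 2 ≤ N
    · obtain ⟨c, hc⟩ := hform (by omega)
      rw [Zt_eq] at hc
      intro hdvd
      apply hlarge N c (by omega)
      rw [← hc]
      exact (pow_dvd_pow X (le_max_left _ _)).trans hdvd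
    · intro hdvd
      have h0 : h₁.eval Z ≠ 0 := by
        intro h0
        rw [h0, map_zero] at hevrel
        rcases mul_eq_zero.mp hevrel.symm with h' | h'
        · rw [map_eq_zero_iff _ io_inj] at h'
          exact hb h'
        · exact hev h'
      have h3 := natDegree_le_of_dvd hdvd h0
      rw [natDegree_X_pow] at h3
      have h4 := hsmall N Z (by omega) hZ
      have h6 : E + 1 ≤ M := le_max_right _ _
      omega
  have h7 := lt_vt hnd
  rw [hevrel, map_mul] at h7
  have h8 : vt p (io p b) ≤ 1 :=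
    IsDedekindDomain.HeightOneSpectrum.valuation_le_one _ _
  refine h7.le.trans ?_
  calc vt p (io p b) * vt p (h.eval (io p Z)) ≤ 1 * vt p (h.eval (io p Z)) := by gcongr
    _ = _ := one_mul _

end Pool.Agent.H367R2.RP
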